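import Pool.Agent.helper40.L9.JFull
import Pool.Agent.helper19.L9.JTab

/-!
# The joint stage: tools for the second batch of finite statements
-/

namespace Helper38.J

open Pool.Agent.helper40.L9.J Helper19.J

/-- not equal -/
def nb (a b : ℕ) : Bool := !(Nat.beq a b)

theorem nb_iff {a b : ℕ} : nb a b = true ↔ a ≠ b := by
  unfold nb
  rw [Bool.not_eq_true', ← Bool.not_eq_true, Nat.beq_eq]

/-- `m` is a subset of `n` -/
def sub (m n : ℕ) : Bool := Nat.beq (Nat.land m n) m

theorem sub_testBit {m n i : ℕ} (h : sub m n = true) (hi : m.testBit i = true) :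
    n.testBit i = true := by
  have h1 : m &&& n = m := Nat.eq_of_beq_eq_true h
  rw [← h1, Nat.testBit_and, Bool.and_eq_true] at hi
  exact hi.2

/-- union of `f i` over the elements `i` of the mask `m` -/
def ub (m : ℕ) (f : ℕ → ℕ) : ℕ :=
  Nat.lor (cond (tb m 0) (f 0) 0) (Nat.lor (cond (tb m 1) (f 1) 0)
    (Nat.lor (cond (tb m 2) (f 2) 0) (Nat.lor (cond (tb m 3) (f 3) 0) (cond (tb m 4) (f 4) 0))))

theorem cond_testBit {b : Bool} {m j : ℕ} (h : (cond b m 0).testBit j = true) :
    b = true ∧ m.testBit j = true := by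
  cases b
  · simp at h
  · exact ⟨rfl, h⟩

theorem ub_testBit {m : ℕ} {f : ℕ → ℕ} {j : ℕ} (h : (ub m f).testBit j = true) :
    ∃ i, i < 5 ∧ m.testBit i = true ∧ (f i).testBit j = true := by
  have h0 : (cond (tb m 0) (f 0) 0 ||| (cond (tb m 1) (f 1) 0 |||
    (cond (tb m 2) (f 2) 0 ||| (cond (tb m 3) (f 3) 0 ||| cond (tb m 4) (f 4) 0)))).testBit j =
      true := h
  simp only [Nat.testBit_or, Bool.or_eq_true] at h0
  rcases h0 with h | h | h | h | h
  · exact ⟨0, by norm_num, tb_iff.1 (cond_testBit h).1, (cond_testBit h).2⟩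
  · exact ⟨1, by norm_num, tb_iff.1 (cond_testBit h).1, (cond_testBit h).2⟩
  · exact ⟨2, by norm_num, tb_iff.1 (cond_testBit h).1, (cond_testBit h).2⟩
  · exact ⟨3, by norm_num, tb_iff.1 (cond_testBit h).1, (cond_testBit h).2⟩
  · exact ⟨4, by norm_num, tb_iff.1 (cond_testBit h).1, (cond_testBit h).2⟩

/-- the table version of `sdr` -/
def sb (m n : ℕ) : Bool := nb m 0 && (nb n 0 && (nb m n || tb 0xfffefee8 m))

theorem sdr_tab2 : ((List.range 32).all fun m => (List.range 32).all fun n =>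
    !(sb m n) || (r5.any fun i => r5.any fun j => tb m i && (tb n j && nb i j))) = true := by
  decide +kernel

theorem bits_of_sb {m n : ℕ} (hm : m < 32) (hn : n < 32) (h : sb m n = true) :
    ∃ i j, i ≠ j ∧ m.testBit i = true ∧ n.testBit j = true := by
  have h1 := List.all_eq_true.1 (List.all_eq_true.1 sdr_tab2 m (List.mem_range.2 hm)) n
    (List.mem_range.2 hn)
  rw [h, Bool.not_true, Bool.false_or] at h1
  obtain ⟨i, _, h2⟩ := List.any_eq_true.1 h1
  obtain ⟨j, _, h3⟩ := List.any_eq_true.1 h2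
  rw [Bool.and_eq_true, Bool.and_eq_true] at h3
  exact ⟨i, j, nb_iff.1 h3.2.2, tb_iff.1 h3.1, tb_iff.1 h3.2.1⟩

theorem sdr_tab3 : ((List.range 32).all fun m => (List.range 32).all fun n => sdr m n ||
    (r5.all fun i => r5.all fun j => !(tb (cl m) i && (tb (cl n) j && nb i j)))) = true := by
  decide +kernel

theorem cl_lt (m : ℕ) : cl m < 32 := by
  unfold cl
  have : ∀ m : ℕ, Nat.land m 31 ≤ 31 := fun m => Nat.and_le_right
  exact lt_of_le_of_lt (this _) (by norm_num)

theorem sdr_of_bits {m n i j : ℕ} (hm : m < 32) (hn : n < 32) (hij : i ≠ j)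
    (hi : (cl m).testBit i = true) (hj : (cl n).testBit j = true) : sdr m n = true := by
  have hi5 := lt_of_testBit (cl_lt m) hi
  have hj5 := lt_of_testBit (cl_lt n) hj
  have h0 := List.all_eq_true.1 (List.all_eq_true.1 sdr_tab3 m (List.mem_range.2 hm)) n
    (List.mem_range.2 hn)
  rw [Bool.or_eq_true] at h0
  rcases h0 with h0 | h0
  · exact h0
  · have h1 := List.all_eq_true.1 (List.all_eq_true.1 h0 i (mem_r5 hi5)) j (mem_r5 hj5)
    rw [tb_iff.2 hi, tb_iff.2 hj, nb_iff.2 hij] at h1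
    simp at h1

/-- the elements of the masks of `trio` -/
def ob (O : ℕ) : List ℕ :=
  cond (Nat.beq O 5) [0, 2] (cond (Nat.beq O 9) [0, 3] [1, 3])

theorem ob_tab : (trio.all fun O => (ob O).all fun a => tb O a && Nat.ble a 4) = true := by
  decide +kernel

theorem ob_mem {O a : ℕ} (hO : O ∈ trio) (ha : a ∈ ob O) : O.testBit a = true ∧ a < 5 := by
  have h := List.all_eq_true.1 (List.all_eq_true.1 ob_tab O hO) a ha
  rw [Bool.and_eq_true] at h
  exact ⟨tb_iff.1 h.1, Nat.lt_succ_of_le (Nat.le_of_ble_eq_true h.2)⟩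

end Helper38.J
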