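import Pool.Agent.helper38.L9.J2Msk

/-!
# The joint stage: `FRR`, `FVR`
-/

namespace Helper38.J

open Pool.Agent.helper40.L9.J Helper19.J

/-- the patterns for `FRR` -/
def PR : List P5 := [
    (6, 2, 4, 8, 0), (0, 4, 8, 2, 6), (2, 4, 8, 0, 3), (5, 8, 0, 6, 4), (8, 4, 0, 6, 2), (0, 6,
    4, 2, 8), (4, 8, 0, 2, 6), (6, 2, 8, 4, 0), (3, 0, 6, 2, 4), (1, 8, 4, 0, 2), (2, 0, 8, 4,
    1), (7, 0, 2, 6, 8), (4, 2, 8, 6, 0), (0, 8, 4, 2, 6), (8, 4, 0, 6, 8), (4, 2, 8, 0, 3), (0,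
    2, 4, 8, 0), (0, 2, 6, 4, 0), (8, 0, 2, 6, 4), (8, 0, 4, 6, 8), (1, 3, 0, 8, 1), (2, 0, 6,
    8, 1), (7, 5, 0, 6, 8), (1, 3, 0, 4, 1), (1, 9, 4, 0, 2), (1, 5, 8, 4, 1), (0, 2, 8, 3, 1),
    (0, 5, 2, 4, 0), (1, 9, 6, 4, 1), (3, 9, 6, 0, 3), (0, 2, 6, 8, 0), (0, 2, 8, 5, 3), (0, 8,
    2, 9, 0), (0, 2, 8, 4, 1)]

/-- the minimal masks of the sides -/
def LR : List (ℕ × List ℕ × List ℕ) := [
    (5, [0x30128d, 0x10c4299, 0x130120c, 0x450122ab, 0x450d623a, 0x4511322a, 0x4531222e,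
      0x1401132ab, 0x1403122af, 0x14031322e, 0x14111322a, 0x14131222e],
      [0x200f86c62, 0x204b00608, 0x215200608, 0x2542334cb, 0x2552336c3, 0x340b334c3,
      0x340fb5ca1, 0x344b31489, 0x344b31681, 0x354231489, 0x355231681]),
    (9, [0x2c09ec5, 0x118c4e14, 0x134c4a91, 0x295822e26, 0x2958e6a32, 0x29f422aa3, 0x29f4e6a32,
      0x30ec22ea7, 0x30ec2bae3, 0x30ec2be66, 0x31f422aa3, 0x31f4e6a32, 0x38ac22ea7,
      0x38ac2bae3, 0x38ac2be66, 0x391822e26, 0x3918e6a32],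
      [0x202f06462, 0x206f04430, 0x210b06462, 0x215b4255a, 0x21724255a, 0x217604430,
      0x24ab334c3, 0x24af354a1, 0x24eb31491, 0x250b334c3, 0x250b354a1, 0x255b71599,
      0x25e2735cb, 0x25e6354a1, 0x25f231491]),
    (10, [0x408d45, 0x200c4d14, 0x20408941, 0x204c4911, 0x204cc950, 0x2e4032d26, 0x2e40f6932,
      0x34c432d27, 0x34c43a963, 0x34c43ad66],
      [0x488834, 0x8004a144, 0x8048a864, 0x804c8924, 0xa008a864, 0xa00c8924, 0xe103b0d5,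
      0xe1079195, 0x148039095, 0x1484b98a5])]

/-- the masks of `Core` -/
def CR : List (ℕ × ℕ) := [
    (1, 0x2f72bb7a7), (3, 0x2f262d5de), (5, 0x30494dcde), (7, 0x109dd6a79), (9, 0x48ff6b79)]

theorem LR_mem : (trio.all fun O => LR.any fun s => Nat.beq s.1 O) = true := by decide +kernel
theorem CR_mem : (od.all fun z => CR.any fun s => Nat.beq s.1 z) = true := by decide +kernel
theorem CR_ok : (CR.all fun s => sub s.2 (msk (coreb s.1) PR)) = true := by decide +kernel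

theorem chkRA : (LR.all fun s => od.all fun z => od.all fun w => od.all fun b =>
    nb (al3 z w b) s.1 || od.all fun c => nb (al3 z b c) s.1 || ev.all fun l =>
      !(gb z l) || s.2.1.any fun m => sub m (msk (fR z w b c l) PR)) = true := by decide +kernel

theorem chkRB : (LR.all fun s => od.all fun z => od.all fun w => od.all fun b =>
    nb (al3 z w b) s.1 || od.all fun c => nb (al3 z b c) s.1 || ev.all fun l =>
      !(gb z l) || s.2.2.any fun m => sub m (msk (fR' z w b c l) PR)) = true := by decide +kernel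

theorem chkRC : (LR.all fun s => s.2.1.all fun m => s.2.2.all fun n => CR.all fun t =>
    nb (Nat.land m (Nat.land n t.2)) 0) = true := by decide +kernel

/-- two real chords -/
theorem FRR {O : ℕ} (h : O ∈ trio)
    (z1 w1 b c l1 z5 w5 b' c' l5 z3 : ℕ)
    (hz1 : z1 ≤ 9 ∧ z1 % 2 = 1) (hw1 : w1 ≤ 9 ∧ w1 % 2 = 1) (hb : b ≤ 9 ∧ b % 2 = 1)
    (hc : c ≤ 9 ∧ c % 2 = 1) (hl : l1 ≤ 9 ∧ l1 % 2 = 0)
    (hz5 : z5 ≤ 9 ∧ z5 % 2 = 1) (hw5 : w5 ≤ 9 ∧ w5 % 2 = 1) (hb' : b' ≤ 9 ∧ b' % 2 = 1)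
    (hc' : c' ≤ 9 ∧ c' % 2 = 1) (hl' : l5 ≤ 9 ∧ l5 % 2 = 0) (hz3 : z3 ≤ 9 ∧ z3 % 2 = 1)
    (h1 : al3 z1 w1 b = O) (h2 : al3 z1 b c = O) (h3 : al3 z5 w5 b' = O)
    (h4 : al3 z5 b' c' = O) (h5 : gp z1 l1) (h6 : gp z5 l5) :
    ∃ v1 v2 v3 v4 v5 y y', Core z3 v1 v2 v3 v4 v5 ∧ SdR z1 w1 b c l1 v1 v2 v3 v4 v5 y ∧
      SdR z5 w5 b' c' l5 v5 v4 v3 v2 v1 y' := by
  obtain ⟨s, hs, hsO⟩ := List.any_eq_true.1 (List.all_eq_true.1 LR_mem O h)
  have hO := Nat.eq_of_beq_eq_true hsO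
  obtain ⟨t, ht, htz⟩ := List.any_eq_true.1 (List.all_eq_true.1 CR_mem z3 (mem_od hz3))
  have hz := Nat.eq_of_beq_eq_true htz
  have cA := List.all_eq_true.1 (List.all_eq_true.1 (List.all_eq_true.1
    (List.all_eq_true.1 chkRA s hs) z1 (mem_od hz1)) w1 (mem_od hw1)) b (mem_od hb)
  rw [Bool.or_eq_true, nb_iff] at cA
  rcases cA with cA | cA
  · exact absurd (h1.trans hO.symm) cA
  have cA1 := List.all_eq_true.1 cA c (mem_od hc)
  rw [Bool.or_eq_true, nb_iff] at cA1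
  rcases cA1 with cA1 | cA1
  · exact absurd (h2.trans hO.symm) cA1
  have cA2 := List.all_eq_true.1 cA1 l1 (mem_ev hl)
  rw [gb_iff.2 h5, Bool.not_true, Bool.false_or] at cA2
  obtain ⟨m, hm, cA3⟩ := List.any_eq_true.1 cA2
  have cB := List.all_eq_true.1 (List.all_eq_true.1 (List.all_eq_true.1
    (List.all_eq_true.1 chkRB s hs) z5 (mem_od hz5)) w5 (mem_od hw5)) b' (mem_od hb')
  rw [Bool.or_eq_true, nb_iff] at cB
  rcases cB with cB | cB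
  · exact absurd (h3.trans hO.symm) cB
  have cB1 := List.all_eq_true.1 cB c' (mem_od hc')
  rw [Bool.or_eq_true, nb_iff] at cB1
  rcases cB1 with cB1 | cB1
  · exact absurd (h4.trans hO.symm) cB1
  have cB2 := List.all_eq_true.1 cB1 l5 (mem_ev hl')
  rw [gb_iff.2 h6, Bool.not_true, Bool.false_or] at cB2
  obtain ⟨n, hn, cB3⟩ := List.any_eq_true.1 cB2
  obtain ⟨v, e1, e2, e3⟩ := pick cA3 cB3 (List.all_eq_true.1 CR_ok t ht)
    (List.all_eq_true.1 (List.all_eq_true.1 (List.all_eq_true.1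
      (List.all_eq_true.1 chkRC s hs) m hm) n hn) t ht)
  rw [hz] at e3
  obtain ⟨y, hy⟩ := fR_spec e1
  obtain ⟨y', hy'⟩ := fR'_spec e2
  exact ⟨v.1, v.2.1, v.2.2.1, v.2.2.2.1, v.2.2.2.2, y, y', coreb_spec e3, hy, hy'⟩

/-- the patterns for `FVR` -/
def PV : List P5 := [
    (3, 0, 8, 5, 3), (3, 0, 2, 5, 3), (1, 8, 4, 6, 0), (1, 4, 2, 6, 0), (1, 4, 6, 2, 0), (5, 8,
    0, 6, 4), (3, 0, 4, 8, 2), (1, 4, 0, 6, 2), (1, 8, 6, 0, 2), (7, 0, 6, 2, 8), (1, 8, 2, 6,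
    0), (7, 4, 8, 0, 6), (5, 8, 4, 0, 6), (3, 0, 4, 1, 3), (7, 4, 6, 0, 8), (1, 8, 0, 9, 1), (3,
    0, 8, 2, 4), (7, 0, 2, 8, 6), (3, 0, 6, 8, 2), (7, 4, 0, 2, 6), (1, 8, 0, 7, 1), (3, 0, 8,
    1, 3), (3, 0, 2, 9, 3)]

/-- the minimal masks of the virtual sides -/
def LV : List ((ℕ × ℕ × ℕ × ℕ) × List ℕ) := [
    ((5, 3, 7, 7), [0x95ac, 0x1015ac]),
    ((5, 6, 14, 7), [0x95ac, 0x1015ac]),
    ((5, 12, 28, 13), [0x1015bc]),
    ((9, 3, 7, 11), [0xa4f9c]),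
    ((9, 12, 28, 13), [0x1a4f9c]),
    ((10, 3, 7, 11), [0x2f6a43, 0x6f6a40]),
    ((10, 6, 14, 14), [0x2f6a43, 0x4f4a43]),
    ((10, 12, 28, 14), [0x2f6a43, 0x4f4a43])]

/-- the minimal masks of the real sides -/
def LW : List (ℕ × List ℕ) := [
    (5, [0x8424, 0x48160, 0x48544, 0x10c604, 0x140564, 0x181c24, 0x189c04, 0x18da00, 0x1c1960,
      0x1c1d44]),
    (9, [0x4018, 0x400d8, 0x440c0, 0x81818, 0x85800, 0xd18e0]),
    (10, [0x23341f, 0x2524df, 0x2634df, 0x2730c3, 0x410203, 0x421203, 0x431003, 0x60261c,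
      0x6422c0, 0x6424dc])]

/-- the masks of `Core` -/
def CV : List (ℕ × ℕ) := [
    (1, 0x55b55), (3, 0x3dcbb1), (5, 0x7b8ca8), (7, 0x4ab4ee), (9, 0x1e77fe)]

def isT2 (O A L B : ℕ) (t : ℕ × ℕ × ℕ × ℕ) : Bool :=
  Nat.beq t.1 O && (Nat.beq t.2.1 A && (Nat.beq t.2.2.1 L && Nat.beq t.2.2.2 B))

theorem isT2_iff {O A L B : ℕ} {t : ℕ × ℕ × ℕ × ℕ} (h : isT2 O A L B t = true) :
    t = (O, A, L, B) := by
  unfold isT2 at h
  simp only [Bool.and_eq_true] at h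
  obtain ⟨h1, h2, h3, h4⟩ := h
  exact Prod.ext (Nat.eq_of_beq_eq_true h1) (Prod.ext (Nat.eq_of_beq_eq_true h2)
    (Prod.ext (Nat.eq_of_beq_eq_true h3) (Nat.eq_of_beq_eq_true h4)))

theorem LV_mem : (dVR.all fun d => LV.any fun s => isT2 d.1 d.2.1 d.2.2.1 d.2.2.2 s.1) = true := by
  decide +kernel
theorem LW_mem : (trio.all fun O => LW.any fun s => Nat.beq s.1 O) = true := by decide +kernel
theorem LV_trio : (dVR.all fun d => trio.contains d.1) = true := by decide +kernel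
theorem CV_mem : (od.all fun z => CV.any fun s => Nat.beq s.1 z) = true := by decide +kernel
theorem CV_ok : (CV.all fun s => sub s.2 (msk (coreb s.1) PV)) = true := by decide +kernel

theorem chkVA : (LV.all fun s => od.all fun z => od.all fun w => od.all fun b =>
    nb (al3 z w b) s.1.1 || od.all fun c => nb (al3 z b c) s.1.2.1 || ev.all fun l =>
      !(gb z l) || od.all fun b0 => od.all fun c0 => nb (al2 b0 c0) s.1.2.2.2 ||
        s.2.any fun m => sub m (msk (fV z w b c l b0 c0 s.1.2.2.1) PV)) = true := by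
  decide +kernel

theorem chkVB : (LW.all fun s => od.all fun z => od.all fun w => od.all fun b =>
    nb (al3 z w b) s.1 || od.all fun c => nb (al3 z b c) s.1 || ev.all fun l =>
      !(gb z l) || s.2.any fun m => sub m (msk (fR' z w b c l) PV)) = true := by decide +kernel

theorem chkVC : (LV.all fun s => LW.all fun s' => nb s.1.1 s'.1 || s.2.all fun m =>
    s'.2.all fun n => CV.all fun t => nb (Nat.land m (Nat.land n t.2)) 0) = true := by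
  decide +kernel

/-- virtual - real -/
theorem FVR {O A L B : ℕ} (h : (O, A, L, B) ∈ dVR)
    (z1 w1 b c l1 b0 c0 z5 w5 b' c' l5 z3 : ℕ)
    (hz1 : z1 ≤ 9 ∧ z1 % 2 = 1) (hw1 : w1 ≤ 9 ∧ w1 % 2 = 1) (hb : b ≤ 9 ∧ b % 2 = 1)
    (hc : c ≤ 9 ∧ c % 2 = 1) (hl : l1 ≤ 9 ∧ l1 % 2 = 0)
    (hb0 : b0 ≤ 9 ∧ b0 % 2 = 1) (hc0 : c0 ≤ 9 ∧ c0 % 2 = 1)
    (hz5 : z5 ≤ 9 ∧ z5 % 2 = 1) (hw5 : w5 ≤ 9 ∧ w5 % 2 = 1) (hb' : b' ≤ 9 ∧ b' % 2 = 1)
    (hc' : c' ≤ 9 ∧ c' % 2 = 1) (hl' : l5 ≤ 9 ∧ l5 % 2 = 0) (hz3 : z3 ≤ 9 ∧ z3 % 2 = 1)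
    (h1 : al3 z1 w1 b = O) (h2 : al3 z1 b c = A) (h2' : al2 b0 c0 = B)
    (h3 : al3 z5 w5 b' = O) (h4 : al3 z5 b' c' = O) (h5 : gp z1 l1) (h6 : gp z5 l5) :
    ∃ v1 v2 v3 v4 v5 y x u y', Core z3 v1 v2 v3 v4 v5 ∧
      SdV z1 w1 b c l1 b0 c0 L v1 v2 v3 v4 v5 y x u ∧
      SdR z5 w5 b' c' l5 v5 v4 v3 v2 v1 y' := by
  obtain ⟨s, hs, hsO⟩ := List.any_eq_true.1 (List.all_eq_true.1 LV_mem _ h)
  have hO := isT2_iff hsO
  have hT : O ∈ trio := List.contains_iff_mem.1 (List.all_eq_true.1 LV_trio _ h)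
  obtain ⟨s', hs', hsO'⟩ := List.any_eq_true.1 (List.all_eq_true.1 LW_mem O hT)
  have hO' := Nat.eq_of_beq_eq_true hsO'
  obtain ⟨t, ht, htz⟩ := List.any_eq_true.1 (List.all_eq_true.1 CV_mem z3 (mem_od hz3))
  have hz := Nat.eq_of_beq_eq_true htz
  have cA := List.all_eq_true.1 (List.all_eq_true.1 (List.all_eq_true.1
    (List.all_eq_true.1 chkVA s hs) z1 (mem_od hz1)) w1 (mem_od hw1)) b (mem_od hb)
  rw [hO, Bool.or_eq_true, nb_iff] at cA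
  rcases cA with cA | cA
  · exact absurd h1 cA
  have cA1 := List.all_eq_true.1 cA c (mem_od hc)
  rw [Bool.or_eq_true, nb_iff] at cA1
  rcases cA1 with cA1 | cA1
  · exact absurd h2 cA1
  have cA2 := List.all_eq_true.1 cA1 l1 (mem_ev hl)
  rw [gb_iff.2 h5, Bool.not_true, Bool.false_or] at cA2
  have cA3 := List.all_eq_true.1 (List.all_eq_true.1 cA2 b0 (mem_od hb0)) c0 (mem_od hc0)
  rw [Bool.or_eq_true, nb_iff] at cA3
  rcases cA3 with cA3 | cA3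
  · exact absurd h2' cA3
  obtain ⟨m, hm, cA4⟩ := List.any_eq_true.1 cA3
  have cB := List.all_eq_true.1 (List.all_eq_true.1 (List.all_eq_true.1
    (List.all_eq_true.1 chkVB s' hs') z5 (mem_od hz5)) w5 (mem_od hw5)) b' (mem_od hb')
  rw [Bool.or_eq_true, nb_iff] at cB
  rcases cB with cB | cB
  · exact absurd (h3.trans hO'.symm) cB
  have cB1 := List.all_eq_true.1 cB c' (mem_od hc')
  rw [Bool.or_eq_true, nb_iff] at cB1
  rcases cB1 with cB1 | cB1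
  · exact absurd (h4.trans hO'.symm) cB1
  have cB2 := List.all_eq_true.1 cB1 l5 (mem_ev hl')
  rw [gb_iff.2 h6, Bool.not_true, Bool.false_or] at cB2
  obtain ⟨n, hn, cB3⟩ := List.any_eq_true.1 cB2
  have cC := List.all_eq_true.1 (List.all_eq_true.1 chkVC s hs) s' hs'
  rw [Bool.or_eq_true, nb_iff, hO, hO'] at cC
  rcases cC with cC | cC
  · exact absurd rfl cC
  obtain ⟨v, e1, e2, e3⟩ := pick cA4 cB3 (List.all_eq_true.1 CV_ok t ht)
    (List.all_eq_true.1 (List.all_eq_true.1 (List.all_eq_true.1 cC m hm) n hn) t ht)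
  rw [hz] at e3
  obtain ⟨y, x, u, hy⟩ := fV_spec e1
  obtain ⟨y', hy'⟩ := fR'_spec e2
  exact ⟨v.1, v.2.1, v.2.2.1, v.2.2.2.1, v.2.2.2.2, y, x, u, y', coreb_spec e3, hy, hy'⟩

end Helper38.J
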