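import Pool.Agent.helper38.L9.J2VV

/-!
# The joint stage: the full relation on one side
-/

namespace Helper38.J

open Pool.Agent.helper40.L9.J Helper19.J

theorem sdr_tab4 : ((List.range 32).all fun m => (List.range 32).all fun n =>
    !(sdr m n) || (r5.any fun i => r5.any fun j => tb m i && (tb n j && nb i j))) = true := by
  decide +kernel

theorem sdr_tab5 : ((List.range 32).all fun m => (List.range 32).all fun n => sdr m n ||
    (r5.all fun i => r5.all fun j => !(tb m i && (tb n j && nb i j)))) = true := by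
  decide +kernel

theorem bits_of_sdr {m n : ℕ} (hm : m < 32) (hn : n < 32) (h : sdr m n = true) :
    ∃ i j, i < 5 ∧ j < 5 ∧ i ≠ j ∧ m.testBit i = true ∧ n.testBit j = true := by
  have h1 := List.all_eq_true.1 (List.all_eq_true.1 sdr_tab4 m (List.mem_range.2 hm)) n
    (List.mem_range.2 hn)
  rw [h, Bool.not_true, Bool.false_or] at h1
  obtain ⟨i, hi, h2⟩ := List.any_eq_true.1 h1
  obtain ⟨j, hj, h3⟩ := List.any_eq_true.1 h2
  rw [Bool.and_eq_true, Bool.and_eq_true] at h3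
  exact ⟨i, j, lt_of_mem_r5 hi, lt_of_mem_r5 hj, nb_iff.1 h3.2.2, tb_iff.1 h3.1, tb_iff.1 h3.2.1⟩

theorem sdr_of_bits' {m n i j : ℕ} (hm : m < 32) (hn : n < 32) (hij : i ≠ j)
    (hi : m.testBit i = true) (hj : n.testBit j = true) : sdr m n = true := by
  have hi5 := lt_of_testBit hm hi
  have hj5 := lt_of_testBit hn hj
  have h0 := List.all_eq_true.1 (List.all_eq_true.1 sdr_tab5 m (List.mem_range.2 hm)) n
    (List.mem_range.2 hn)
  rw [Bool.or_eq_true] at h0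
  rcases h0 with h0 | h0
  · exact h0
  · have h1 := List.all_eq_true.1 (List.all_eq_true.1 h0 i (mem_r5 hi5)) j (mem_r5 hj5)
    rw [tb_iff.2 hi, tb_iff.2 hj, nb_iff.2 hij] at h1
    simp at h1

/-- monotone in both masks -/
theorem sdr_mono {m n m' n' : ℕ} (hm : m < 32) (hn : n < 32) (hm' : m' < 32) (hn' : n' < 32)
    (h1 : sub m m' = true) (h2 : sub n n' = true) (h : sdr m n = true) : sdr m' n' = true := by
  obtain ⟨i, j, _, _, hij, hi, hj⟩ := bits_of_sdr hm hn h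
  exact sdr_of_bits' hm' hn' hij (sub_testBit h1 hi) (sub_testBit h2 hj)

theorem u4_tab : (r5.all fun e => M3.all fun B => M3.all fun L => r5.all fun y =>
    sub (u4 e B (kk L y)) (u4 e B L)) = true := by decide +kernel

theorem u4_kk_sub {e B L y : ℕ} (he : e < 5) (hB : B ∈ M3) (hL : L ∈ M3) (hy : y < 5) :
    sub (u4 e B (kk L y)) (u4 e B L) = true :=
  List.all_eq_true.1 (List.all_eq_true.1 (List.all_eq_true.1
    (List.all_eq_true.1 u4_tab e (mem_r5 he)) B hB) L hL) y (mem_r5 hy)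

theorem sub_refl (m : ℕ) : sub m m = true := by
  have h0 : Nat.land m m = m := Nat.and_self m
  unfold sub
  rw [h0]
  exact Nat.beq_refl m

theorem full_tab : (dVV.all fun d => r5.any fun a => tb d.1 a && (r5.any fun e => tb d.1 e &&
    (r5.any fun y => tb d.2.1 y && (nb y a && (r5.any fun y' => tb d.2.2.2.2.1 y' && (nb y' e &&
      sdr (u4 e d.2.2.2.1 d.2.2.1)
        (u4 a d.2.2.2.2.2.2 (kk d.2.2.2.2.2.1 y')))))))) = true := by decide +kernel

theorem full_tab' : (dVV.all fun d => r5.any fun a => tb d.1 a && (r5.any fun e => tb d.1 e &&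
    (r5.any fun y => tb d.2.1 y && (nb y a && (r5.any fun y' => tb d.2.2.2.2.1 y' && (nb y' e &&
      sdr (u4 e d.2.2.2.1 (kk d.2.2.1 y))
        (u4 a d.2.2.2.2.2.2 d.2.2.2.2.2.1))))))) = true := by decide +kernel

theorem M2_5 {A : ℕ} (h : A ∈ M2) : A < 32 := by
  revert h; revert A; decide

theorem trio_5 {O : ℕ} (h : O ∈ trio) : O < 32 := by
  revert h; revert O; decide

/-- `DVV` with the full relation on side `A`, no exceptions -/
theorem DVVL {O A L B A' L' B' : ℕ} (h : O ∈ trio) (hA : A ∈ M2) (hL : L ∈ M3) (hB : B ∈ M3)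
    (hA' : A' ∈ M2) (hL' : L' ∈ M3) (hB' : B' ∈ M3) :
    ∃ a e y y', O.testBit a = true ∧ O.testBit e = true ∧ A.testBit y = true ∧ y ≠ a ∧
      A'.testBit y' = true ∧ y' ≠ e ∧
      sdr (u4 e B L) (u4 a B' (kk L' y')) = true := by
  by_cases hd : (O, A, L, B, A', L', B') ∈ dVV
  · obtain ⟨a, _, h1⟩ := List.any_eq_true.1 (List.all_eq_true.1 full_tab _ hd)
    rw [Bool.and_eq_true] at h1
    obtain ⟨e, _, h2⟩ := List.any_eq_true.1 h1.2
    rw [Bool.and_eq_true] at h2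
    obtain ⟨y, _, h3⟩ := List.any_eq_true.1 h2.2
    rw [Bool.and_eq_true, Bool.and_eq_true] at h3
    obtain ⟨y', _, h4⟩ := List.any_eq_true.1 h3.2.2
    rw [Bool.and_eq_true, Bool.and_eq_true] at h4
    exact ⟨a, e, y, y', tb_iff.1 h1.1, tb_iff.1 h2.1, tb_iff.1 h3.1, nb_iff.1 h3.2.1,
      tb_iff.1 h4.1, nb_iff.1 h4.2.1, h4.2.2⟩
  · obtain ⟨a, e, y, y', h1, h2, h3, h4, h5, h6, h7⟩ := DVV h hA hL hB hA' hL' hB' hd
    refine ⟨a, e, y, y', h1, h2, h3, h4, h5, h6, ?_⟩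
    exact sdr_mono (u4_lt _ _ _) (u4_lt _ _ _) (u4_lt _ _ _) (u4_lt _ _ _)
      (u4_kk_sub (lt_of_testBit (trio_5 h) h2) hB hL (lt_of_testBit (M2_5 hA) h3))
      (sub_refl _) h7

/-- `DVV` with the full relation on side `B`, no exceptions -/
theorem DVVR {O A L B A' L' B' : ℕ} (h : O ∈ trio) (hA : A ∈ M2) (hL : L ∈ M3) (hB : B ∈ M3)
    (hA' : A' ∈ M2) (hL' : L' ∈ M3) (hB' : B' ∈ M3) :
    ∃ a e y y', O.testBit a = true ∧ O.testBit e = true ∧ A.testBit y = true ∧ y ≠ a ∧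
      A'.testBit y' = true ∧ y' ≠ e ∧
      sdr (u4 e B (kk L y)) (u4 a B' L') = true := by
  by_cases hd : (O, A, L, B, A', L', B') ∈ dVV
  · obtain ⟨a, _, h1⟩ := List.any_eq_true.1 (List.all_eq_true.1 full_tab' _ hd)
    rw [Bool.and_eq_true] at h1
    obtain ⟨e, _, h2⟩ := List.any_eq_true.1 h1.2
    rw [Bool.and_eq_true] at h2
    obtain ⟨y, _, h3⟩ := List.any_eq_true.1 h2.2
    rw [Bool.and_eq_true, Bool.and_eq_true] at h3
    obtain ⟨y', _, h4⟩ := List.any_eq_true.1 h3.2.2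
    rw [Bool.and_eq_true, Bool.and_eq_true] at h4
    exact ⟨a, e, y, y', tb_iff.1 h1.1, tb_iff.1 h2.1, tb_iff.1 h3.1, nb_iff.1 h3.2.1,
      tb_iff.1 h4.1, nb_iff.1 h4.2.1, h4.2.2⟩
  · obtain ⟨a, e, y, y', h1, h2, h3, h4, h5, h6, h7⟩ := DVV h hA hL hB hA' hL' hB' hd
    refine ⟨a, e, y, y', h1, h2, h3, h4, h5, h6, ?_⟩
    exact sdr_mono (u4_lt _ _ _) (u4_lt _ _ _) (u4_lt _ _ _) (u4_lt _ _ _) (sub_refl _)
      (u4_kk_sub (lt_of_testBit (trio_5 h) h1) hB' hL' (lt_of_testBit (M2_5 hA') h5)) h7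

end Helper38.J
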