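import Pool.Agent.helper38.L9.J2Base

/-!
# The joint stage: masks over a list of patterns
-/

namespace Helper38.J

open Pool.Agent.helper40.L9.J Helper19.J

/-- the labels of `v1 .. v5` -/
abbrev P5 := ℕ × ℕ × ℕ × ℕ × ℕ

/-- the mask of the elements of the list with the property -/
def msk (f : P5 → Bool) (P : List P5) : ℕ :=
  P.foldr (fun p m => Nat.add (cond (f p) 1 0) (Nat.mul 2 m)) 0

theorem msk_testBit {f : P5 → Bool} {P : List P5} {i : ℕ} (h : (msk f P).testBit i = true) :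
    ∃ p, P[i]? = some p ∧ f p = true := by
  induction P generalizing i with
  | nil => simp [msk] at h
  | cons p P ih =>
    have e : msk f (p :: P) = 2 * msk f P + (cond (f p) 1 0) := by
      have e1 : msk f (p :: P) = (cond (f p) 1 0) + 2 * msk f P := rfl
      rw [e1, Nat.add_comm]
    rw [e] at h
    cases i with
    | zero =>
      refine ⟨p, by simp, ?_⟩
      cases hb : f p
      · rw [hb] at h
        rw [cond_false, Nat.add_zero, Nat.testBit_zero] at h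
        simp at h
      · rfl
    | succ i =>
      have h2 : (msk f P).testBit i = true := by
        rw [Nat.testBit_succ] at h
        have e2 : (2 * msk f P + (cond (f p) 1 0)) / 2 = msk f P := by
          cases f p <;> simp; omega
        rwa [e2] at h
      obtain ⟨q, hq, hf⟩ := ih h2
      exact ⟨q, by simpa using hq, hf⟩

/-- three masks with a common element -/
theorem pick {f g h : P5 → Bool} {P : List P5} {m n c : ℕ} (hm : sub m (msk f P) = true)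
    (hn : sub n (msk g P) = true) (hc : sub c (msk h P) = true)
    (H : nb (Nat.land m (Nat.land n c)) 0 = true) :
    ∃ p, f p = true ∧ g p = true ∧ h p = true := by
  have H1 := nb_iff.1 H
  have H2 : ∃ i, (m &&& (n &&& c)).testBit i = true := by
    by_contra hne
    push Not at hne
    apply H1
    apply Nat.eq_of_testBit_eq
    intro i
    rw [Nat.zero_testBit]
    cases hb : (Nat.land m (Nat.land n c)).testBit i
    · rfl
    · exact absurd hb (hne i)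
  obtain ⟨i, hi⟩ := H2
  rw [Nat.testBit_and, Nat.testBit_and, Bool.and_eq_true, Bool.and_eq_true] at hi
  obtain ⟨p, hp, h1⟩ := msk_testBit (sub_testBit hm hi.1)
  obtain ⟨q, hq, h2⟩ := msk_testBit (sub_testBit hn hi.2.1)
  obtain ⟨r, hr, h3⟩ := msk_testBit (sub_testBit hc hi.2.2)
  rw [hp] at hq hr
  cases hq
  cases hr
  exact ⟨p, h1, h2, h3⟩

def od : List ℕ := [1, 3, 5, 7, 9]
def ev : List ℕ := [0, 2, 4, 6, 8]

theorem mem_od {z : ℕ} (h : z ≤ 9 ∧ z % 2 = 1) : z ∈ od := by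
  obtain ⟨h1, h2⟩ := h
  unfold od
  interval_cases z <;> simp at h2 ⊢

theorem mem_ev {z : ℕ} (h : z ≤ 9 ∧ z % 2 = 0) : z ∈ ev := by
  obtain ⟨h1, h2⟩ := h
  unfold ev
  interval_cases z <;> simp at h2 ⊢

theorem od_mem {z : ℕ} (h : z ∈ od) : z ≤ 9 ∧ z % 2 = 1 := by
  revert z; decide

theorem ev_mem {z : ℕ} (h : z ∈ ev) : z ≤ 9 ∧ z % 2 = 0 := by
  revert z; decide

/-- distance at least two -/
def gb (m n : ℕ) : Bool := Nat.ble (Nat.add m 2) n || Nat.ble (Nat.add n 2) m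

theorem gb_iff {m n : ℕ} : gb m n = true ↔ gp m n := by
  unfold gb gp
  rw [Bool.or_eq_true]
  exact or_congr ⟨Nat.le_of_ble_eq_true, Nat.ble_eq_true_of_le⟩
    ⟨Nat.le_of_ble_eq_true, Nat.ble_eq_true_of_le⟩

/-- even -/
def eb (m : ℕ) : Bool := Nat.beq (Nat.mod m 2) 0

theorem eb_iff {m : ℕ} : eb m = true ↔ m % 2 = 0 := by
  unfold eb
  rw [Nat.beq_eq]
  exact Iff.rfl

def coreb (z3 : ℕ) (v : P5) : Bool :=
  Nat.ble v.1 9 && (Nat.ble v.2.1 9 && (Nat.ble v.2.2.1 9 && (Nat.ble v.2.2.2.1 9 &&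
  (Nat.ble v.2.2.2.2 9 && (eb v.2.2.1 && (gb v.1 v.2.1 && (gb v.2.1 v.2.2.1 &&
  (gb v.2.2.1 v.2.2.2.1 && (gb v.2.2.2.1 v.2.2.2.2 && (nb v.1 v.2.2.1 && (nb v.2.1 v.2.2.2.1 &&
  (nb v.2.2.1 v.2.2.2.2 && (gb v.2.2.1 z3 && (nb v.2.1 z3 && nb v.2.2.2.1 z3))))))))))))))

theorem coreb_spec {z3 : ℕ} {v : P5} (h : coreb z3 v = true) :
    Core z3 v.1 v.2.1 v.2.2.1 v.2.2.2.1 v.2.2.2.2 := by
  unfold coreb at h
  simp only [Bool.and_eq_true, nb_iff, gb_iff, eb_iff] at h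
  obtain ⟨h1, h2, h3, h4, h5, h6⟩ := h
  exact ⟨Nat.le_of_ble_eq_true h1, Nat.le_of_ble_eq_true h2, Nat.le_of_ble_eq_true h3,
    Nat.le_of_ble_eq_true h4, Nat.le_of_ble_eq_true h5, h6⟩

/-- side `A`, real chord -/
def sdRb (z w b c l : ℕ) (v : P5) (y : ℕ) : Bool :=
  nb y z && (nb y b && (nb y c && (gb y v.1 && (gb y v.2.2.2.1 && (nb y v.2.1 &&
  (nb y v.2.2.1 && (nb y v.2.2.2.2 && (gb v.1 z && (nb v.1 l && (nb v.1 w && (nb v.1 b &&
  (nb v.1 v.2.2.2.1 && (nb v.2.1 z && nb v.2.2.2.1 b)))))))))))))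

theorem sdRb_spec {z w b c l : ℕ} {v : P5} {y : ℕ} (hy : y ∈ od)
    (h : sdRb z w b c l v y = true) :
    SdR z w b c l v.1 v.2.1 v.2.2.1 v.2.2.2.1 v.2.2.2.2 y := by
  unfold sdRb at h
  simp only [Bool.and_eq_true, nb_iff, gb_iff] at h
  exact ⟨(od_mem hy).1, (od_mem hy).2, h⟩

/-- the reversed pattern -/
def rv (v : P5) : P5 := (v.2.2.2.2, v.2.2.2.1, v.2.2.1, v.2.1, v.1)

def fR (z w b c l : ℕ) (v : P5) : Bool := od.any fun y => sdRb z w b c l v y
def fR' (z w b c l : ℕ) (v : P5) : Bool := od.any fun y => sdRb z w b c l (rv v) y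

theorem fR_spec {z w b c l : ℕ} {v : P5} (h : fR z w b c l v = true) :
    ∃ y, SdR z w b c l v.1 v.2.1 v.2.2.1 v.2.2.2.1 v.2.2.2.2 y := by
  obtain ⟨y, hy, h1⟩ := List.any_eq_true.1 h
  exact ⟨y, sdRb_spec hy h1⟩

theorem fR'_spec {z w b c l : ℕ} {v : P5} (h : fR' z w b c l v = true) :
    ∃ y, SdR z w b c l v.2.2.2.2 v.2.2.2.1 v.2.2.1 v.2.1 v.1 y := by
  obtain ⟨y, hy, h1⟩ := List.any_eq_true.1 h
  exact ⟨y, sdRb_spec hy h1⟩

/-- side `A`, virtual chord -/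
def fV (z w b c l b0 c0 L : ℕ) (v : P5) : Bool :=
  nb (Nat.mod v.1 2) 0 && (gb v.1 z && (nb v.1 l && (nb v.1 w && (nb v.1 b && (nb v.2.1 z &&
  (nb v.2.2.2.1 b0 && (od.any fun y =>
    nb y z && (nb y b && (nb y c && (gb y v.1 && (nb y v.2.1 && (od.any fun x =>
      nb x b0 && (nb x c0 && (gb x v.2.2.2.1 && (nb x v.2.2.1 && (nb x v.2.2.2.2 &&
      (ev.any fun u => gb x u && (tb (kk L (Nat.div y 2)) (Nat.div u 2) &&
        nb v.2.2.2.1 u))))))))))))))))))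

theorem fV_spec {z w b c l b0 c0 L : ℕ} {v : P5} (h : fV z w b c l b0 c0 L v = true) :
    ∃ y x u, SdV z w b c l b0 c0 L v.1 v.2.1 v.2.2.1 v.2.2.2.1 v.2.2.2.2 y x u := by
  unfold fV at h
  simp only [Bool.and_eq_true, nb_iff, gb_iff, List.any_eq_true, tb_iff] at h
  obtain ⟨a1, a2, a3, a4, a5, a6, a7, y, hy, b1, b2, b3, b4, b5, x, hx, c1, c2, c3, c4, c5,
    u, hu, d1, d2, d3⟩ := h
  have a1' : v.1 % 2 = 1 := by
    have : v.1 % 2 ≠ 0 := a1
    omega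
  exact ⟨y, x, u, (od_mem hy).1, (od_mem hy).2, b1, b2, b3, b4, b5, (od_mem hx).1, (od_mem hx).2,
    c1, c2, c3, d1, c4, c5, (ev_mem hu).2, d2, a1', a2, a3, a4, a5, a6, a7, d3⟩

end Helper38.J
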