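import Pool.Agent.helper38.L9.J2Base

/-!
# The joint stage: `DVV`, `DVR`
-/

namespace Helper38.J

open Pool.Agent.helper40.L9.J Helper19.J

/-- the union of the classes of `u4 e B (kk L y)`, `y` in `A`, different from `a` -/
def dA (A L B a e : ℕ) : ℕ := ub A fun y => cond (Nat.beq y a) 0 (tu e B (tk L y))

theorem tu_lt (e B C : ℕ) : tu e B C < 32 := by
  have h : ∀ m : ℕ, Nat.land m 31 ≤ 31 := fun m => Nat.and_le_right
  unfold tu
  exact lt_of_le_of_lt (h _) (by norm_num)

theorem dA_testBit {A L B a e i : ℕ} (h : (dA A L B a e).testBit i = true) :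
    ∃ y, y < 5 ∧ A.testBit y = true ∧ y ≠ a ∧ (tu e B (tk L y)).testBit i = true := by
  obtain ⟨y, hy, hA, h1⟩ := ub_testBit h
  refine ⟨y, hy, hA, ?_⟩
  cases hb : Nat.beq y a
  · rw [hb] at h1
    refine ⟨?_, h1⟩
    intro hya
    subst hya
    rw [Nat.beq_refl] at hb
    exact absurd hb (by decide)
  · rw [hb] at h1
    exact absurd h1 (by simp)

theorem dA_lt (A L B a e : ℕ) : dA A L B a e < 32 := by
  have h : ∀ y, cond (Nat.beq y a) 0 (tu e B (tk L y)) < 32 := by
    intro y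
    cases Nat.beq y a
    · exact tu_lt _ _ _
    · norm_num
  have h' : ∀ i, cond (tb A i) (cond (Nat.beq i a) 0 (tu e B (tk L i))) 0 < 2 ^ 5 := by
    intro i
    cases tb A i
    · norm_num
    · exact h i
  exact Nat.or_lt_two_pow (h' 0) (Nat.or_lt_two_pow (h' 1) (Nat.or_lt_two_pow (h' 2)
    (Nat.or_lt_two_pow (h' 3) (h' 4))))

/-- the digit of a profile -/
def dg (p a e : ℕ) : ℕ := Nat.land (Nat.shiftRight p (Nat.mul 5 (Nat.add a (Nat.mul 5 e)))) 31

theorem dg_lt (p a e : ℕ) : dg p a e < 32 := by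
  have h : ∀ m : ℕ, Nat.land m 31 ≤ 31 := fun m => Nat.and_le_right
  unfold dg
  exact lt_of_le_of_lt (h _) (by norm_num)

/-- profiles which are never dangerous -/
def SP : List (ℕ × List ℕ) :=
  [(5, [0x1007c000000004010, 0x10040000000007c10, 0x1f040000000000000, 0x1004000000000401f]),
   (9, [0x4000800000000000008001f, 0x400f8000000000000080010, 0x7c00f8000000000000000000, 0x7c0008000000000000080010, 0x400080000000000000f8010, 0xf801f]),
   (10, [0x401000000001f0040000000, 0x107c0000000, 0x41f00000000010040000000, 0x7c0100000000010040000000])]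

/-- the triples which may be dangerous -/
def DT : List (ℕ × ℕ × ℕ × ℕ) :=
  [(5, 12, 25, 13), (5, 12, 26, 13), (5, 12, 28, 13), (9, 3, 7, 11), (9, 3, 14, 11), (9, 3,
    22, 11), (9, 5, 13, 13), (9, 5, 14, 13), (9, 5, 28, 13), (9, 10, 7, 11), (9, 10, 14, 11),
    (9, 10, 22, 11), (9, 12, 13, 13), (9, 12, 14, 13), (9, 12, 28, 13), (10, 3, 7, 11), (10,
    3, 11, 11), (10, 3, 19, 11)]

def isT (O A L B : ℕ) (t : ℕ × ℕ × ℕ × ℕ) : Bool :=
  Nat.beq t.1 O && (Nat.beq t.2.1 A && (Nat.beq t.2.2.1 L && Nat.beq t.2.2.2 B))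

theorem isT_iff {O A L B : ℕ} {t : ℕ × ℕ × ℕ × ℕ} (h : isT O A L B t = true) :
    t = (O, A, L, B) := by
  unfold isT at h
  simp only [Bool.and_eq_true] at h
  obtain ⟨h1, h2, h3, h4⟩ := h
  exact Prod.ext (Nat.eq_of_beq_eq_true h1) (Prod.ext (Nat.eq_of_beq_eq_true h2)
    (Prod.ext (Nat.eq_of_beq_eq_true h3) (Nat.eq_of_beq_eq_true h4)))

/-- the side functions `f, g` match -/
def mt (O : ℕ) (f g : ℕ → ℕ → ℕ) : Bool :=
  (ob O).any fun a => (ob O).any fun e => sb (f a e) (g e a)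

/-- the side function `f` is at most `g` -/
def dm (O : ℕ) (f g : ℕ → ℕ → ℕ) : Bool :=
  (ob O).all fun a => (ob O).all fun e => sub (f a e) (g a e)

/-- given `O` and `B` -/
def chkVA1 (O B : ℕ) : Bool := SP.all fun s => nb s.1 O || M2.all fun A => M3.all fun L =>
    (DT.any (isT s.1 A L B)) || s.2.any fun p => dm s.1 (dg p) (dA A L B)

theorem kA_5_7 : chkVA1 5 7 = true := by decide +kernel
theorem kA_5_11 : chkVA1 5 11 = true := by decide +kernel
theorem kA_5_13 : chkVA1 5 13 = true := by decide +kernel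
theorem kA_5_14 : chkVA1 5 14 = true := by decide +kernel
theorem kA_5_19 : chkVA1 5 19 = true := by decide +kernel
theorem kA_5_21 : chkVA1 5 21 = true := by decide +kernel
theorem kA_5_22 : chkVA1 5 22 = true := by decide +kernel
theorem kA_5_25 : chkVA1 5 25 = true := by decide +kernel
theorem kA_5_26 : chkVA1 5 26 = true := by decide +kernel
theorem kA_5_28 : chkVA1 5 28 = true := by decide +kernel
theorem kA_9_7 : chkVA1 9 7 = true := by decide +kernel
theorem kA_9_11 : chkVA1 9 11 = true := by decide +kernel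
theorem kA_9_13 : chkVA1 9 13 = true := by decide +kernel
theorem kA_9_14 : chkVA1 9 14 = true := by decide +kernel
theorem kA_9_19 : chkVA1 9 19 = true := by decide +kernel
theorem kA_9_21 : chkVA1 9 21 = true := by decide +kernel
theorem kA_9_22 : chkVA1 9 22 = true := by decide +kernel
theorem kA_9_25 : chkVA1 9 25 = true := by decide +kernel
theorem kA_9_26 : chkVA1 9 26 = true := by decide +kernel
theorem kA_9_28 : chkVA1 9 28 = true := by decide +kernel
theorem kA_10_7 : chkVA1 10 7 = true := by decide +kernel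
theorem kA_10_11 : chkVA1 10 11 = true := by decide +kernel
theorem kA_10_13 : chkVA1 10 13 = true := by decide +kernel
theorem kA_10_14 : chkVA1 10 14 = true := by decide +kernel
theorem kA_10_19 : chkVA1 10 19 = true := by decide +kernel
theorem kA_10_21 : chkVA1 10 21 = true := by decide +kernel
theorem kA_10_22 : chkVA1 10 22 = true := by decide +kernel
theorem kA_10_25 : chkVA1 10 25 = true := by decide +kernel
theorem kA_10_26 : chkVA1 10 26 = true := by decide +kernel
theorem kA_10_28 : chkVA1 10 28 = true := by decide +kernel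

theorem kA_5 : (M3.all fun B => chkVA1 5 B) = true := by
  simp only [M3, List.all_cons, List.all_nil, Bool.and_true,
    kA_5_7, kA_5_11, kA_5_13, kA_5_14, kA_5_19, kA_5_21, kA_5_22, kA_5_25, kA_5_26, kA_5_28]

theorem kA_9 : (M3.all fun B => chkVA1 9 B) = true := by
  simp only [M3, List.all_cons, List.all_nil, Bool.and_true,
    kA_9_7, kA_9_11, kA_9_13, kA_9_14, kA_9_19, kA_9_21, kA_9_22, kA_9_25, kA_9_26, kA_9_28]

theorem kA_10 : (M3.all fun B => chkVA1 10 B) = true := by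
  simp only [M3, List.all_cons, List.all_nil, Bool.and_true,
    kA_10_7, kA_10_11, kA_10_13, kA_10_14, kA_10_19, kA_10_21, kA_10_22, kA_10_25, kA_10_26,
    kA_10_28]

theorem kA : (SP.all fun s => M3.all fun B => chkVA1 s.1 B) = true := by
  simp only [SP, List.all_cons, List.all_nil, Bool.and_true, kA_5, kA_9, kA_10]

theorem chkA {s : ℕ × List ℕ} (hs : s ∈ SP) {A L B : ℕ} (hA : A ∈ M2) (hL : L ∈ M3)
    (hB : B ∈ M3) :
    (DT.any (isT s.1 A L B) || s.2.any fun p => dm s.1 (dg p) (dA A L B)) = true := by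
  have h1 := List.all_eq_true.1 (List.all_eq_true.1 (List.all_eq_true.1 kA s hs) B hB) s hs
  rw [Bool.or_eq_true, nb_iff] at h1
  rcases h1 with h1 | h1
  · exact absurd rfl h1
  · exact List.all_eq_true.1 (List.all_eq_true.1 h1 A hA) L hL

theorem chkB : (SP.all fun s => s.2.all fun p => s.2.all fun q => mt s.1 (dg p) (dg q)) = true := by
  decide +kernel

theorem chkC : (SP.all fun s => s.2.all fun p => DT.all fun t => nb t.1 s.1 ||
    (mt s.1 (dg p) (dA t.2.1 t.2.2.1 t.2.2.2) && mt s.1 (dA t.2.1 t.2.2.1 t.2.2.2) (dg p))) =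
      true := by
  decide +kernel

theorem chkD : (DT.all fun t => DT.all fun t' => nb t.1 t'.1 ||
    (dVV.contains (t.1, t.2.1, t.2.2.1, t.2.2.2, t'.2.1, t'.2.2.1, t'.2.2.2) ||
      mt t.1 (dA t.2.1 t.2.2.1 t.2.2.2) (dA t'.2.1 t'.2.2.1 t'.2.2.2))) = true := by
  decide +kernel

theorem SP_mem : (trio.all fun O => SP.any fun s => Nat.beq s.1 O) = true := by decide +kernel

theorem sb_bits {O A L B A' L' B' : ℕ} {f g : ℕ → ℕ → ℕ} (h : O ∈ trio)
    (hB : B ∈ M3) (hL : L ∈ M3) (hB' : B' ∈ M3) (hL' : L' ∈ M3)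
    (hf : ∀ a e, f a e < 32) (hg : ∀ a e, g a e < 32)
    (hfA : ∀ a ∈ ob O, ∀ e ∈ ob O, ∀ i, (f a e).testBit i = true →
      (dA A L B a e).testBit i = true)
    (hgA : ∀ a ∈ ob O, ∀ e ∈ ob O, ∀ i, (g a e).testBit i = true →
      (dA A' L' B' a e).testBit i = true) (hm : mt O f g = true) :
    ∃ a e y y', O.testBit a = true ∧ O.testBit e = true ∧ A.testBit y = true ∧ y ≠ a ∧
      A'.testBit y' = true ∧ y' ≠ e ∧
      sdr (u4 e B (kk L y)) (u4 a B' (kk L' y')) = true := by
  obtain ⟨a, ha, h1⟩ := List.any_eq_true.1 hm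
  obtain ⟨e, he, h2⟩ := List.any_eq_true.1 h1
  obtain ⟨i, j, hij, hi, hj⟩ := bits_of_sb (hf _ _) (hg _ _) h2
  obtain ⟨y, hy, hAy, hya, h3⟩ := dA_testBit (hfA a ha e he i hi)
  obtain ⟨y', hy', hAy', hye, h4⟩ := dA_testBit (hgA e he a ha j hj)
  refine ⟨a, e, y, y', (ob_mem h ha).1, (ob_mem h he).1, hAy, hya, hAy', hye, ?_⟩
  have k1 := kk_eq hL hy
  have k2 := kk_eq hL' hy'
  rw [k1.1, k2.1]
  apply sdr_of_bits (u4_lt _ _ _) (u4_lt _ _ _) hij
  · rw [cl_u4 (ob_mem h he).2 (M3_sub hB).1 k1.2]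
    exact h3
  · rw [cl_u4 (ob_mem h ha).2 (M3_sub hB').1 k2.2]
    exact h4

theorem dm_sub {O : ℕ} {f g : ℕ → ℕ → ℕ} (h : dm O f g = true) :
    ∀ a ∈ ob O, ∀ e ∈ ob O, ∀ i, (f a e).testBit i = true → (g a e).testBit i = true :=
  fun a ha e he _ hi =>
    sub_testBit (List.all_eq_true.1 (List.all_eq_true.1 h a ha) e he) hi

theorem DVV {O A L B A' L' B' : ℕ} (h : O ∈ trio) (hA : A ∈ M2) (hL : L ∈ M3) (hB : B ∈ M3)
    (hA' : A' ∈ M2) (hL' : L' ∈ M3) (hB' : B' ∈ M3) (hd : (O, A, L, B, A', L', B') ∉ dVV) :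
    ∃ a e y y', O.testBit a = true ∧ O.testBit e = true ∧ A.testBit y = true ∧ y ≠ a ∧
      A'.testBit y' = true ∧ y' ≠ e ∧
      sdr (u4 e B (kk L y)) (u4 a B' (kk L' y')) = true := by
  obtain ⟨s, hs, hsO⟩ := List.any_eq_true.1 (List.all_eq_true.1 SP_mem O h)
  have hO := Nat.eq_of_beq_eq_true hsO
  subst hO
  have c1 := chkA hs hA hL hB
  have c2 := chkA hs hA' hL' hB'
  rw [Bool.or_eq_true] at c1 c2
  have id1 : ∀ A L B : ℕ, ∀ a ∈ ob s.1, ∀ e ∈ ob s.1, ∀ i, (dA A L B a e).testBit i = true →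
      (dA A L B a e).testBit i = true := fun _ _ _ _ _ _ _ _ hi => hi
  rcases c1 with c1 | c1 <;> rcases c2 with c2 | c2
  · obtain ⟨t, ht, h1⟩ := List.any_eq_true.1 c1
    obtain ⟨t', ht', h1'⟩ := List.any_eq_true.1 c2
    have e1 := isT_iff h1
    have e2 := isT_iff h1'
    subst e1
    subst e2
    have c3 := List.all_eq_true.1 (List.all_eq_true.1 chkD _ ht) _ ht'
    rw [Bool.or_eq_true, Bool.or_eq_true, nb_iff] at c3
    rcases c3 with c3 | c3 | c3
    · exact absurd rfl c3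
    · exact absurd (List.contains_iff_mem.1 c3) hd
    · exact sb_bits h hB hL hB' hL' (dA_lt _ _ _) (dA_lt _ _ _) (id1 _ _ _) (id1 _ _ _) c3
  · obtain ⟨t, ht, h1⟩ := List.any_eq_true.1 c1
    obtain ⟨q, hq, h1'⟩ := List.any_eq_true.1 c2
    have e1 := isT_iff h1
    subst e1
    have c3 := List.all_eq_true.1 (List.all_eq_true.1 (List.all_eq_true.1 chkC s hs) q hq) _ ht
    rw [Bool.or_eq_true, Bool.and_eq_true, nb_iff] at c3
    rcases c3 with c3 | c3
    · exact absurd rfl c3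
    · exact sb_bits h hB hL hB' hL' (dA_lt _ _ _) (dg_lt _) (id1 _ _ _) (dm_sub h1') c3.2
  · obtain ⟨t, ht, h1⟩ := List.any_eq_true.1 c2
    obtain ⟨q, hq, h1'⟩ := List.any_eq_true.1 c1
    have e1 := isT_iff h1
    subst e1
    have c3 := List.all_eq_true.1 (List.all_eq_true.1 (List.all_eq_true.1 chkC s hs) q hq) _ ht
    rw [Bool.or_eq_true, Bool.and_eq_true, nb_iff] at c3
    rcases c3 with c3 | c3
    · exact absurd rfl c3
    · exact sb_bits h hB hL hB' hL' (dg_lt _) (dA_lt _ _ _) (dm_sub h1') (id1 _ _ _) c3.1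
  · obtain ⟨p, hp, h1⟩ := List.any_eq_true.1 c1
    obtain ⟨q, hq, h1'⟩ := List.any_eq_true.1 c2
    have c3 := List.all_eq_true.1 (List.all_eq_true.1 (List.all_eq_true.1 chkB s hs) p hp) q hq
    exact sb_bits h hB hL hB' hL' (dg_lt _) (dg_lt _) (dm_sub h1) (dm_sub h1') c3

/-- given `O` and `B` -/
def chkR1 (O B : ℕ) : Bool := M2.all fun A => M3.all fun L =>
    M2.all fun A' => (Nat.beq A' O && dVR.any (isT O A L B)) ||
      (ob O).any fun a => (ob O).any fun e => sb (dA A L B a e) (tr e a A')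

theorem kR_5_7 : chkR1 5 7 = true := by decide +kernel
theorem kR_5_11 : chkR1 5 11 = true := by decide +kernel
theorem kR_5_13 : chkR1 5 13 = true := by decide +kernel
theorem kR_5_14 : chkR1 5 14 = true := by decide +kernel
theorem kR_5_19 : chkR1 5 19 = true := by decide +kernel
theorem kR_5_21 : chkR1 5 21 = true := by decide +kernel
theorem kR_5_22 : chkR1 5 22 = true := by decide +kernel
theorem kR_5_25 : chkR1 5 25 = true := by decide +kernel
theorem kR_5_26 : chkR1 5 26 = true := by decide +kernel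
theorem kR_5_28 : chkR1 5 28 = true := by decide +kernel
theorem kR_9_7 : chkR1 9 7 = true := by decide +kernel
theorem kR_9_11 : chkR1 9 11 = true := by decide +kernel
theorem kR_9_13 : chkR1 9 13 = true := by decide +kernel
theorem kR_9_14 : chkR1 9 14 = true := by decide +kernel
theorem kR_9_19 : chkR1 9 19 = true := by decide +kernel
theorem kR_9_21 : chkR1 9 21 = true := by decide +kernel
theorem kR_9_22 : chkR1 9 22 = true := by decide +kernel
theorem kR_9_25 : chkR1 9 25 = true := by decide +kernel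
theorem kR_9_26 : chkR1 9 26 = true := by decide +kernel
theorem kR_9_28 : chkR1 9 28 = true := by decide +kernel
theorem kR_10_7 : chkR1 10 7 = true := by decide +kernel
theorem kR_10_11 : chkR1 10 11 = true := by decide +kernel
theorem kR_10_13 : chkR1 10 13 = true := by decide +kernel
theorem kR_10_14 : chkR1 10 14 = true := by decide +kernel
theorem kR_10_19 : chkR1 10 19 = true := by decide +kernel
theorem kR_10_21 : chkR1 10 21 = true := by decide +kernel
theorem kR_10_22 : chkR1 10 22 = true := by decide +kernel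
theorem kR_10_25 : chkR1 10 25 = true := by decide +kernel
theorem kR_10_26 : chkR1 10 26 = true := by decide +kernel
theorem kR_10_28 : chkR1 10 28 = true := by decide +kernel

theorem kR_5 : (M3.all fun B => chkR1 5 B) = true := by
  simp only [M3, List.all_cons, List.all_nil, Bool.and_true,
    kR_5_7, kR_5_11, kR_5_13, kR_5_14, kR_5_19, kR_5_21, kR_5_22, kR_5_25, kR_5_26, kR_5_28]

theorem kR_9 : (M3.all fun B => chkR1 9 B) = true := by
  simp only [M3, List.all_cons, List.all_nil, Bool.and_true,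
    kR_9_7, kR_9_11, kR_9_13, kR_9_14, kR_9_19, kR_9_21, kR_9_22, kR_9_25, kR_9_26, kR_9_28]

theorem kR_10 : (M3.all fun B => chkR1 10 B) = true := by
  simp only [M3, List.all_cons, List.all_nil, Bool.and_true,
    kR_10_7, kR_10_11, kR_10_13, kR_10_14, kR_10_19, kR_10_21, kR_10_22, kR_10_25, kR_10_26,
    kR_10_28]

theorem kR : (trio.all fun O => M3.all fun B => chkR1 O B) = true := by
  simp only [trio, List.all_cons, List.all_nil, Bool.and_true, kR_5, kR_9, kR_10]

theorem chkR {O A L B A' : ℕ} (h : O ∈ trio) (hA : A ∈ M2) (hL : L ∈ M3) (hB : B ∈ M3)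
    (hA' : A' ∈ M2) : ((Nat.beq A' O && dVR.any (isT O A L B)) ||
      (ob O).any fun a => (ob O).any fun e => sb (dA A L B a e) (tr e a A')) = true :=
  List.all_eq_true.1 (List.all_eq_true.1 (List.all_eq_true.1 (List.all_eq_true.1
    (List.all_eq_true.1 kR O h) B hB) A hA) L hL) A' hA'

theorem tr_lt (a e A : ℕ) : tr a e A < 32 := by
  have h : ∀ m : ℕ, Nat.land m 31 ≤ 31 := fun m => Nat.and_le_right
  unfold tr
  exact lt_of_le_of_lt (h _) (by norm_num)

theorem DVR {O A L B A' : ℕ} (h : O ∈ trio) (hA : A ∈ M2) (hL : L ∈ M3) (hB : B ∈ M3)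
    (hA' : A' ∈ M2) (hd : ¬ ((O, A, L, B) ∈ dVR ∧ A' = O)) :
    ∃ a e y, O.testBit a = true ∧ O.testBit e = true ∧ A.testBit y = true ∧ y ≠ a ∧
      sdr (u4 e B (kk L y)) (uR e a A') = true := by
  have c := chkR h hA hL hB hA'
  rw [Bool.or_eq_true, Bool.and_eq_true] at c
  rcases c with c | c
  · exfalso
    apply hd
    obtain ⟨t, ht, h1⟩ := List.any_eq_true.1 c.2
    have e1 := isT_iff h1
    subst e1
    exact ⟨ht, Nat.eq_of_beq_eq_true c.1⟩
  · obtain ⟨a, ha, h1⟩ := List.any_eq_true.1 c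
    obtain ⟨e, he, h2⟩ := List.any_eq_true.1 h1
    obtain ⟨i, j, hij, hi, hj⟩ := bits_of_sb (dA_lt _ _ _ _ _) (tr_lt _ _ _) h2
    obtain ⟨y, hy, hAy, hya, h3⟩ := dA_testBit hi
    refine ⟨a, e, y, (ob_mem h ha).1, (ob_mem h he).1, hAy, hya, ?_⟩
    have k1 := kk_eq hL hy
    rw [k1.1]
    apply sdr_of_bits (u4_lt _ _ _) (uR_lt _ _ _) hij
    · rw [cl_u4 (ob_mem h he).2 (M3_sub hB).1 k1.2]
      exact h3
    · rw [cl_uR (ob_mem h he).2 (ob_mem h ha).2 (M2_sub hA').2]
      exact hj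

end Helper38.J
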