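import Pool.Agent.helper38.L9.J2Msk

/-!
# The joint stage: `Y1`
-/

namespace Helper38.J

open Pool.Agent.helper40.L9.J Helper19.J

/-- reversed virtual side -/
def fV' (z w b c l b0 c0 L : ℕ) (v : P5) : Bool := fV z w b c l b0 c0 L (rv v)

theorem fV'_spec {z w b c l b0 c0 L : ℕ} {v : P5} (h : fV' z w b c l b0 c0 L v = true) :
    ∃ y x u, SdV z w b c l b0 c0 L v.2.2.2.2 v.2.2.2.1 v.2.2.1 v.2.1 v.1 y x u := fV_spec h

/-- side `A`, last link even, `k = 1` -/
def fY (z b d q l B L : ℕ) (v : P5) : Bool :=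
  eb v.1 && (eb v.2.1 && (eb v.2.2.2.1 && (gb v.1 z && (nb v.1 l && (ev.any fun u =>
    tb L (Nat.div u 2) && (nb v.2.2.2.1 u && ((od.any fun x => tb B (Nat.div x 2) &&
      (gb x v.2.2.2.1 && (gb x u && (nb x v.2.2.1 && nb x v.2.2.2.2)))) &&
    (ev.any fun T => tb L (Nat.div T 2) && (nb T u && (nb v.1 T && (ev.any fun y =>
      nb y T && (nb u y && (nb y q && (nb y d && (gb y b && (gb y v.1 && nb y v.2.1))))))))))))))))

theorem fY_spec {z b d q l B L : ℕ} {v : P5} (h : fY z b d q l B L v = true) :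
    v.1 % 2 = 0 ∧ v.2.1 % 2 = 0 ∧ v.2.2.2.1 % 2 = 0 ∧ gp v.1 z ∧ v.1 ≠ l ∧ ∃ u ∈ ev,
      L.testBit (u / 2) = true ∧ v.2.2.2.1 ≠ u ∧ (∃ x ∈ od, B.testBit (x / 2) = true ∧
        gp x v.2.2.2.1 ∧ gp x u ∧ x ≠ v.2.2.1 ∧ x ≠ v.2.2.2.2) ∧
      ∃ T ∈ ev, L.testBit (T / 2) = true ∧ T ≠ u ∧ v.1 ≠ T ∧ ∃ y ∈ ev,
        y ≠ T ∧ u ≠ y ∧ y ≠ q ∧ y ≠ d ∧ gp y b ∧ gp y v.1 ∧ y ≠ v.2.1 := by
  unfold fY at h
  simp only [Bool.and_eq_true, nb_iff, gb_iff, eb_iff, List.any_eq_true, tb_iff] at h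
  exact h

theorem al2_tab : (od.all fun b0 => od.all fun c0 => od.all fun x =>
    !(tb (al2 b0 c0) (Nat.div x 2)) || (nb x b0 && nb x c0)) = true := by decide +kernel

theorem al2_spec {b0 c0 x : ℕ} (hb : b0 ∈ od) (hc : c0 ∈ od) (hx : x ∈ od)
    (h : (al2 b0 c0).testBit (x / 2) = true) : x ≠ b0 ∧ x ≠ c0 := by
  have h1 := List.all_eq_true.1 (List.all_eq_true.1 (List.all_eq_true.1 al2_tab b0 hb) c0 hc) x hx
  have h2 : tb (al2 b0 c0) (Nat.div x 2) = true := tb_iff.2 h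
  rw [h2, Bool.not_true, Bool.false_or, Bool.and_eq_true, nb_iff, nb_iff] at h1
  exact h1

theorem ev2_tab : (ev.all fun p => ev.all fun q => ev.all fun x =>
    !(tb (ev2 p q) (Nat.div x 2)) || (nb x p && nb x q)) = true := by decide +kernel

theorem ev2_spec {p q x : ℕ} (hp : p ∈ ev) (hq : q ∈ ev) (hx : x ∈ ev)
    (h : (ev2 p q).testBit (x / 2) = true) : x ≠ p ∧ x ≠ q := by
  have h1 := List.all_eq_true.1 (List.all_eq_true.1 (List.all_eq_true.1 ev2_tab p hp) q hq) x hx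
  have h2 : tb (ev2 p q) (Nat.div x 2) = true := tb_iff.2 h
  rw [h2, Bool.not_true, Bool.false_or, Bool.and_eq_true, nb_iff, nb_iff] at h1
  exact h1

def isT3 (O A L B : ℕ) (t : ℕ × ℕ × ℕ × ℕ) : Bool :=
  Nat.beq t.1 O && (Nat.beq t.2.1 A && (Nat.beq t.2.2.1 L && Nat.beq t.2.2.2 B))

theorem isT3_iff {O A L B : ℕ} {t : ℕ × ℕ × ℕ × ℕ} (h : isT3 O A L B t = true) :
    t = (O, A, L, B) := by
  unfold isT3 at h
  simp only [Bool.and_eq_true] at h
  obtain ⟨h1, h2, h3, h4⟩ := h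
  exact Prod.ext (Nat.eq_of_beq_eq_true h1) (Prod.ext (Nat.eq_of_beq_eq_true h2)
    (Prod.ext (Nat.eq_of_beq_eq_true h3) (Nat.eq_of_beq_eq_true h4)))

/-- the patterns for `Y1` -/
def PY : List P5 := [
    (0, 2, 8, 4, 1), (8, 6, 0, 4, 7), (0, 4, 2, 0, 5), (6, 8, 0, 4, 7), (0, 8, 2, 4, 1), (2, 0,
    8, 4, 1), (0, 4, 6, 8, 5), (0, 6, 2, 4, 7), (6, 0, 8, 4, 7), (8, 2, 6, 0, 3), (6, 4, 0, 6,
    3), (2, 8, 0, 4, 1), (0, 2, 8, 4, 7), (2, 8, 0, 4, 7), (6, 0, 2, 4, 1), (8, 2, 0, 8, 5), (2,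
    4, 0, 2, 5), (2, 8, 6, 4, 7), (6, 8, 0, 4, 1), (4, 0, 6, 8, 3), (0, 4, 6, 8, 1), (6, 4, 8,
    0, 3), (4, 0, 2, 6, 3), (8, 4, 0, 6, 3), (6, 2, 4, 8, 5), (6, 0, 4, 8, 5), (6, 4, 0, 8, 5),
    (6, 2, 8, 4, 1), (6, 2, 8, 4, 7), (2, 6, 8, 0, 3), (6, 2, 0, 8, 5), (2, 4, 8, 0, 3), (2, 8,
    4, 0, 3), (0, 6, 2, 4, 1), (2, 6, 8, 4, 1), (2, 6, 0, 4, 7), (6, 0, 4, 6, 1), (0, 2, 4, 0,
    7), (0, 4, 6, 0, 7), (8, 0, 4, 6, 3), (4, 0, 2, 4, 7), (0, 2, 4, 8, 5), (2, 0, 4, 2, 5)]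

/-- the types and the minimal masks of the sides with an even last link -/
def LY : List ((ℕ × ℕ × ℕ × ℕ) × List ℕ) := [
    ((5, 12, 25, 13), [0x55100019, 0x42063445d9, 0x42573445d8, 0x8000900213, 0x8006a4470a, 0x805580020a,
      0x805b84c30a, 0xc2009002d2, 0x10257180109, 0x10257580111, 0x2225b145199,
      0x2225f045199, 0x2a200809293, 0x40fd7132931, 0x40ff7132129, 0x509a05b2831,
      0x509f54b2828, 0x50dd74b2920, 0x50df70b2128, 0x50f805b2831, 0x50fa01b2021]),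
    ((5, 12, 26, 13), [0x405f2405c8, 0x60061011dd, 0x605d34141d, 0x6180101835, 0x800680030a, 0x805b84c30a,
      0x805da4860a, 0xc0008082c2, 0xe0009012d7, 0xe000909217, 0x10180480820,
      0x104f7080120, 0x16000581015, 0x2625b14519d, 0x2625f0451d9, 0x266f71011e5,
      0x362571811c5, 0x366a01810e5]),
    ((5, 12, 28, 13), [0x8006a0070a, 0x805380030a, 0x8055a0860a, 0x200574811c4, 0x22057201588,
      0x26000481044, 0x260062015cc, 0x260530011cc, 0x2605520144c, 0x2a000809282,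
      0x2e0008012c6, 0x2e000809246, 0x401804b2000, 0x408f7490100, 0x608a04910c4,
      0x608f70111c4, 0x66180033044]),
    ((9, 3, 7, 11), [0x4d240400, 0x200580050, 0x5a0000800, 0x10066c4400, 0x1206344450, 0x8200908250,
      0x8520808a20, 0x20200808211, 0x20720100871]),
    ((9, 3, 14, 11), [0x6480108, 0x5d240408, 0xda0032800, 0x40005800c4, 0x40061001cc, 0x8180808a22,
      0x8520808a22, 0x227a00018f5, 0x241801008f5, 0x267201018f5, 0x2a2008092d7,
      0x2c0009082d7, 0x50cff694520, 0x66eff3155e5]),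
    ((9, 3, 22, 11), [0x4ef684420, 0x1006680508, 0x2fa00338b1, 0x40004800c4, 0x4da00328c4, 0x50062005cc,
      0x67200018f5, 0x8520800822, 0x8da083aa02, 0xa200809293, 0xc0008082c6, 0xe2008010d7,
      0x2024f684445, 0x206a0480065, 0x206ef204465, 0x4818083aa22, 0x661800338f5]),
    ((9, 5, 13, 13), [0x580011, 0x55000008, 0x200808213, 0x253100119, 0x9a0032000, 0x8000908213,
      0x805380830a, 0x40180110831, 0x40180490820]),
    ((9, 5, 14, 13), [0x5d240408, 0x180480820, 0xda0032800, 0x800680830a, 0x805380830a, 0x222570011dd,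
      0x26000580055, 0x260061001dd, 0x26180100875, 0x262531011dd, 0x2a2008092d7,
      0x2e0009082d7, 0x3625f7855c5, 0x50cff694520, 0x66eff3155e5, 0x76ea05910e5]),
    ((9, 5, 28, 13), [0x8006a0070a, 0x805380030a, 0x8055a0860a, 0x200574811c4, 0x22057201588,
      0x26000481044, 0x260062015cc, 0x260530011cc, 0x2605520144c, 0x2a000809282,
      0x2e0008012c6, 0x2e000809246, 0x401804b2000, 0x408f7490100, 0x608a04910c4,
      0x608f70111c4, 0x66180033044]),
    ((9, 10, 7, 11), [0x4d240400, 0x200580050, 0x5a0000800, 0x10066c4400, 0x1206344450, 0x8200908250,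
      0x8520808a20, 0x20200808211, 0x20720100871]),
    ((9, 10, 14, 11), [0x6480108, 0x5d240408, 0xda0032800, 0x40005800c4, 0x40061001cc, 0x8180808a22,
      0x8520808a22, 0x227a00018f5, 0x241801008f5, 0x267201018f5, 0x2a2008092d7,
      0x2c0009082d7, 0x50cff694520, 0x66eff3155e5]),
    ((9, 10, 22, 11), [0x4ef684420, 0x1006680508, 0x2fa00338b1, 0x40004800c4, 0x4da00328c4, 0x50062005cc,
      0x67200018f5, 0x8520800822, 0x8da083aa02, 0xa200809293, 0xc0008082c6, 0xe2008010d7,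
      0x2024f684445, 0x206a0480065, 0x206ef204465, 0x4818083aa22, 0x661800338f5]),
    ((9, 12, 13, 13), [0x580011, 0x55000008, 0x200808213, 0x253100119, 0x9a0032000, 0x8000908213,
      0x805380830a, 0x40180110831, 0x40180490820]),
    ((9, 12, 14, 13), [0x5d240408, 0x180480820, 0xda0032800, 0x800680830a, 0x805380830a, 0x222570011dd,
      0x26000580055, 0x260061001dd, 0x26180100875, 0x262531011dd, 0x2a2008092d7,
      0x2e0009082d7, 0x3625f7855c5, 0x50cff694520, 0x66eff3155e5, 0x76ea05910e5]),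
    ((9, 12, 28, 13), [0x8006a0070a, 0x805380030a, 0x8055a0860a, 0x200574811c4, 0x22057201588,
      0x26000481044, 0x260062015cc, 0x260530011cc, 0x2605520144c, 0x2a000809282,
      0x2e0008012c6, 0x2e000809246, 0x401804b2000, 0x408f7490100, 0x608a04910c4,
      0x608f70111c4, 0x66180033044]),
    ((10, 3, 7, 11), [0x4d240400, 0x200580050, 0x5a0000800, 0x10066c4400, 0x1206344450, 0x8200908250,
      0x8520808a20, 0x20200808211, 0x20720100871]),
    ((10, 3, 11, 11), [0x55000008, 0x180008a22, 0x200108252, 0x206100158, 0x5a0000800, 0x10006080108,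
      0x10200180050, 0x20000108253, 0x20380100871]),
    ((10, 3, 19, 11), [0x7a0100850, 0x15ff244c28, 0x8200900052, 0x85a0800802, 0x1121e744558, 0x114ef644528,
      0x115be644d08, 0x207a0100861, 0x2125f344449, 0x216ef344579, 0x2a200809293,
      0x2e000909257, 0x306a0500071, 0x3124f744559, 0x4818083aa22, 0x48d2082aa22,
      0x62f201238f1, 0x62fa00238b1, 0x66380133875, 0x665a0133875])]

/-- the masks of the virtual sides -/
def LZ : List (ℕ × ℕ) := [(5, 0x6164f15c875), (9, 0x17e181679bb), (10, 0x1e9b0ea378a)]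

/-- the masks of `Core` -/
def CY : List (ℕ × ℕ) := [
    (1, 0x6f5bb3a1361), (3, 0x4cfcbfbf6b), (5, 0x10efce5fdbf), (7, 0x7bb47c5ec9e), (9,
    0x7fb47dfeede)]

theorem LY_mem : (dVV.all fun d => (LY.any fun s => isT3 d.1 d.2.1 d.2.2.1 d.2.2.2.1 s.1) &&
    LY.any fun s => isT3 d.1 d.2.2.2.2.1 d.2.2.2.2.2.1 d.2.2.2.2.2.2 s.1) = true := by
  decide +kernel
theorem CY_mem : (od.all fun z => CY.any fun s => Nat.beq s.1 z) = true := by decide +kernel
theorem CY_ok : (CY.all fun s => sub s.2 (msk (coreb s.1) PY)) = true := by decide +kernel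
theorem LZ_mem : (LY.all fun s => LZ.any fun s' => Nat.beq s.1.1 s'.1) = true := by decide +kernel

def isk (k : ℕ × ℕ) (s : (ℕ × ℕ × ℕ × ℕ) × List ℕ) : Bool :=
  Nat.beq s.1.2.2.1 k.1 && Nat.beq s.1.2.2.2 k.2

def bodyA (z : ℕ) (s : (ℕ × ℕ × ℕ × ℕ) × List ℕ) : Bool :=
  od.all fun w => od.all fun b =>
    nb (al3 z w b) s.1.1 || od.all fun c => nb (al3 z b c) s.1.2.1 || ev.all fun d =>
      !(gb b d) || ev.all fun l => !(gb z l) || ev.all fun q => tb s.1.2.2.1 (Nat.div q 2) ||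
        s.2.any fun m => sub m (msk (fY z b d q l s.1.2.2.2 s.1.2.2.1) PY)

/-- the entries with given masks `L`, `B`: `L`, `B` first, so that the evaluations are shared -/
def chkA1 (k : ℕ × ℕ) (z : ℕ) : Bool := LY.all fun s => !(isk k s) || bodyA z s

def keysA : List (ℕ × ℕ) := [(25, 13), (26, 13), (28, 13), (7, 11), (14, 11), (22, 11), (13, 13),
  (14, 13), (11, 11), (19, 11)]

theorem keysA_tab : (LY.all fun s => keysA.any fun k => isk k s) = true := by decide +kernel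

theorem cA_25_13_1 : chkA1 (25, 13) 1 = true := by decide +kernel
theorem cA_25_13_3 : chkA1 (25, 13) 3 = true := by decide +kernel
theorem cA_25_13_5 : chkA1 (25, 13) 5 = true := by decide +kernel
theorem cA_25_13_7 : chkA1 (25, 13) 7 = true := by decide +kernel
theorem cA_25_13_9 : chkA1 (25, 13) 9 = true := by decide +kernel
theorem cA_26_13_1 : chkA1 (26, 13) 1 = true := by decide +kernel
theorem cA_26_13_3 : chkA1 (26, 13) 3 = true := by decide +kernel
theorem cA_26_13_5 : chkA1 (26, 13) 5 = true := by decide +kernel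
theorem cA_26_13_7 : chkA1 (26, 13) 7 = true := by decide +kernel
theorem cA_26_13_9 : chkA1 (26, 13) 9 = true := by decide +kernel
theorem cA_28_13_1 : chkA1 (28, 13) 1 = true := by decide +kernel
theorem cA_28_13_3 : chkA1 (28, 13) 3 = true := by decide +kernel
theorem cA_28_13_5 : chkA1 (28, 13) 5 = true := by decide +kernel
theorem cA_28_13_7 : chkA1 (28, 13) 7 = true := by decide +kernel
theorem cA_28_13_9 : chkA1 (28, 13) 9 = true := by decide +kernel
theorem cA_7_11_1 : chkA1 (7, 11) 1 = true := by decide +kernel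
theorem cA_7_11_3 : chkA1 (7, 11) 3 = true := by decide +kernel
theorem cA_7_11_5 : chkA1 (7, 11) 5 = true := by decide +kernel
theorem cA_7_11_7 : chkA1 (7, 11) 7 = true := by decide +kernel
theorem cA_7_11_9 : chkA1 (7, 11) 9 = true := by decide +kernel
theorem cA_14_11_1 : chkA1 (14, 11) 1 = true := by decide +kernel
theorem cA_14_11_3 : chkA1 (14, 11) 3 = true := by decide +kernel
theorem cA_14_11_5 : chkA1 (14, 11) 5 = true := by decide +kernel
theorem cA_14_11_7 : chkA1 (14, 11) 7 = true := by decide +kernel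
theorem cA_14_11_9 : chkA1 (14, 11) 9 = true := by decide +kernel
theorem cA_22_11_1 : chkA1 (22, 11) 1 = true := by decide +kernel
theorem cA_22_11_3 : chkA1 (22, 11) 3 = true := by decide +kernel
theorem cA_22_11_5 : chkA1 (22, 11) 5 = true := by decide +kernel
theorem cA_22_11_7 : chkA1 (22, 11) 7 = true := by decide +kernel
theorem cA_22_11_9 : chkA1 (22, 11) 9 = true := by decide +kernel
theorem cA_13_13_1 : chkA1 (13, 13) 1 = true := by decide +kernel
theorem cA_13_13_3 : chkA1 (13, 13) 3 = true := by decide +kernel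
theorem cA_13_13_5 : chkA1 (13, 13) 5 = true := by decide +kernel
theorem cA_13_13_7 : chkA1 (13, 13) 7 = true := by decide +kernel
theorem cA_13_13_9 : chkA1 (13, 13) 9 = true := by decide +kernel
theorem cA_14_13_1 : chkA1 (14, 13) 1 = true := by decide +kernel
theorem cA_14_13_3 : chkA1 (14, 13) 3 = true := by decide +kernel
theorem cA_14_13_5 : chkA1 (14, 13) 5 = true := by decide +kernel
theorem cA_14_13_7 : chkA1 (14, 13) 7 = true := by decide +kernel
theorem cA_14_13_9 : chkA1 (14, 13) 9 = true := by decide +kernel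
theorem cA_11_11_1 : chkA1 (11, 11) 1 = true := by decide +kernel
theorem cA_11_11_3 : chkA1 (11, 11) 3 = true := by decide +kernel
theorem cA_11_11_5 : chkA1 (11, 11) 5 = true := by decide +kernel
theorem cA_11_11_7 : chkA1 (11, 11) 7 = true := by decide +kernel
theorem cA_11_11_9 : chkA1 (11, 11) 9 = true := by decide +kernel
theorem cA_19_11_1 : chkA1 (19, 11) 1 = true := by decide +kernel
theorem cA_19_11_3 : chkA1 (19, 11) 3 = true := by decide +kernel
theorem cA_19_11_5 : chkA1 (19, 11) 5 = true := by decide +kernel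
theorem cA_19_11_7 : chkA1 (19, 11) 7 = true := by decide +kernel
theorem cA_19_11_9 : chkA1 (19, 11) 9 = true := by decide +kernel

theorem cA_25_13 : (od.all fun z => chkA1 (25, 13) z) = true := by
  simp only [od, List.all_cons, List.all_nil, cA_25_13_1, cA_25_13_3, cA_25_13_5,
    cA_25_13_7, cA_25_13_9, Bool.and_true]

theorem cA_26_13 : (od.all fun z => chkA1 (26, 13) z) = true := by
  simp only [od, List.all_cons, List.all_nil, cA_26_13_1, cA_26_13_3, cA_26_13_5,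
    cA_26_13_7, cA_26_13_9, Bool.and_true]

theorem cA_28_13 : (od.all fun z => chkA1 (28, 13) z) = true := by
  simp only [od, List.all_cons, List.all_nil, cA_28_13_1, cA_28_13_3, cA_28_13_5,
    cA_28_13_7, cA_28_13_9, Bool.and_true]

theorem cA_7_11 : (od.all fun z => chkA1 (7, 11) z) = true := by
  simp only [od, List.all_cons, List.all_nil, cA_7_11_1, cA_7_11_3, cA_7_11_5,
    cA_7_11_7, cA_7_11_9, Bool.and_true]

theorem cA_14_11 : (od.all fun z => chkA1 (14, 11) z) = true := by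
  simp only [od, List.all_cons, List.all_nil, cA_14_11_1, cA_14_11_3, cA_14_11_5,
    cA_14_11_7, cA_14_11_9, Bool.and_true]

theorem cA_22_11 : (od.all fun z => chkA1 (22, 11) z) = true := by
  simp only [od, List.all_cons, List.all_nil, cA_22_11_1, cA_22_11_3, cA_22_11_5,
    cA_22_11_7, cA_22_11_9, Bool.and_true]

theorem cA_13_13 : (od.all fun z => chkA1 (13, 13) z) = true := by
  simp only [od, List.all_cons, List.all_nil, cA_13_13_1, cA_13_13_3, cA_13_13_5,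
    cA_13_13_7, cA_13_13_9, Bool.and_true]

theorem cA_14_13 : (od.all fun z => chkA1 (14, 13) z) = true := by
  simp only [od, List.all_cons, List.all_nil, cA_14_13_1, cA_14_13_3, cA_14_13_5,
    cA_14_13_7, cA_14_13_9, Bool.and_true]

theorem cA_11_11 : (od.all fun z => chkA1 (11, 11) z) = true := by
  simp only [od, List.all_cons, List.all_nil, cA_11_11_1, cA_11_11_3, cA_11_11_5,
    cA_11_11_7, cA_11_11_9, Bool.and_true]

theorem cA_19_11 : (od.all fun z => chkA1 (19, 11) z) = true := by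
  simp only [od, List.all_cons, List.all_nil, cA_19_11_1, cA_19_11_3, cA_19_11_5,
    cA_19_11_7, cA_19_11_9, Bool.and_true]

theorem cA_all : (keysA.all fun k => od.all fun z => chkA1 k z) = true := by
  simp only [keysA, List.all_cons, List.all_nil, cA_25_13, cA_26_13, cA_28_13, cA_7_11, cA_14_11, cA_22_11, cA_13_13, cA_14_13, cA_11_11, cA_19_11,
    Bool.and_true]

theorem chkYA : (LY.all fun s => od.all fun z => bodyA z s) = true := by
  rw [List.all_eq_true]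
  intro s hs
  rw [List.all_eq_true]
  intro z hz
  obtain ⟨k, hk, hks⟩ := List.any_eq_true.1 (List.all_eq_true.1 keysA_tab s hs)
  have h1 := List.all_eq_true.1 (List.all_eq_true.1 (List.all_eq_true.1 cA_all k hk) z hz) s hs
  rw [hks, Bool.not_true, Bool.false_or] at h1
  exact h1

def bodyB (z : ℕ) (s' : ℕ × ℕ) (s : (ℕ × ℕ × ℕ × ℕ) × List ℕ) : Bool :=
    od.all fun w => od.all fun b =>
    nb (al3 z w b) s.1.1 || od.all fun c => nb (al3 z b c) s.1.2.1 || ev.all fun l =>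
      !(gb z l) || od.all fun b0 => od.all fun c0 => nb (al2 b0 c0) s.1.2.2.2 ||
        sub s'.2 (msk (fV' z w b c l b0 c0 s.1.2.2.1) PY)

def chkB1 (O z : ℕ) : Bool := LZ.all fun s' => !(Nat.beq s'.1 O) || LY.all fun s =>
  nb s.1.1 s'.1 || bodyB z s' s

theorem cB_5_1 : chkB1 5 1 = true := by decide +kernel
theorem cB_5_3 : chkB1 5 3 = true := by decide +kernel
theorem cB_5_5 : chkB1 5 5 = true := by decide +kernel
theorem cB_5_7 : chkB1 5 7 = true := by decide +kernel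
theorem cB_5_9 : chkB1 5 9 = true := by decide +kernel
theorem cB_9_1 : chkB1 9 1 = true := by decide +kernel
theorem cB_9_3 : chkB1 9 3 = true := by decide +kernel
theorem cB_9_5 : chkB1 9 5 = true := by decide +kernel
theorem cB_9_7 : chkB1 9 7 = true := by decide +kernel
theorem cB_9_9 : chkB1 9 9 = true := by decide +kernel
theorem cB_10_1 : chkB1 10 1 = true := by decide +kernel
theorem cB_10_3 : chkB1 10 3 = true := by decide +kernel
theorem cB_10_5 : chkB1 10 5 = true := by decide +kernel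
theorem cB_10_7 : chkB1 10 7 = true := by decide +kernel
theorem cB_10_9 : chkB1 10 9 = true := by decide +kernel

theorem cB_5 : (od.all fun z => chkB1 5 z) = true := by
  simp only [od, List.all_cons, List.all_nil, cB_5_1, cB_5_3, cB_5_5, cB_5_7, cB_5_9,
    Bool.and_true]

theorem cB_9 : (od.all fun z => chkB1 9 z) = true := by
  simp only [od, List.all_cons, List.all_nil, cB_9_1, cB_9_3, cB_9_5, cB_9_7, cB_9_9,
    Bool.and_true]

theorem cB_10 : (od.all fun z => chkB1 10 z) = true := by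
  simp only [od, List.all_cons, List.all_nil, cB_10_1, cB_10_3, cB_10_5, cB_10_7, cB_10_9,
    Bool.and_true]

theorem cB_all : (LZ.all fun s' => od.all fun z => chkB1 s'.1 z) = true := by
  simp only [LZ, List.all_cons, List.all_nil, cB_5, cB_9, cB_10, Bool.and_true]

theorem chkYB {s' : ℕ × ℕ} (hs' : s' ∈ LZ) {s : (ℕ × ℕ × ℕ × ℕ) × List ℕ} (hs : s ∈ LY) {z : ℕ}
    (hz : z ∈ od) : (nb s.1.1 s'.1 || bodyB z s' s) = true := by
  have h1 := List.all_eq_true.1 (List.all_eq_true.1 (List.all_eq_true.1 cB_all s' hs') z hz) s' hs'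
  have h2 : Nat.beq s'.1 s'.1 = true := Nat.beq_refl _
  rw [h2, Bool.not_true, Bool.false_or] at h1
  exact List.all_eq_true.1 h1 s hs

theorem chkYC : (LY.all fun s => LZ.all fun s' => nb s.1.1 s'.1 || s.2.all fun m =>
    CY.all fun t => nb (Nat.land m (Nat.land s'.2 t.2)) 0) = true := by
  decide +kernel

/-- virtual - virtual, `k = 1` on side `A`, the last link `y` of side `A` even (`v5` odd, the rest
even); `p, q` the labels of the ends of the unit -/
theorem Y1 {O A L B A' L' B' : ℕ} (h : (O, A, L, B, A', L', B') ∈ dVV)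
    (z1 w1 b c d l1 p q b0 c0 z5 w5 b' c' l5 b0' c0' z3 : ℕ)
    (hz1 : z1 ≤ 9 ∧ z1 % 2 = 1) (hw1 : w1 ≤ 9 ∧ w1 % 2 = 1) (hb : b ≤ 9 ∧ b % 2 = 1)
    (hc : c ≤ 9 ∧ c % 2 = 1) (hd : d ≤ 9 ∧ d % 2 = 0) (hl : l1 ≤ 9 ∧ l1 % 2 = 0)
    (hp : p ≤ 9 ∧ p % 2 = 0) (hq : q ≤ 9 ∧ q % 2 = 0)
    (hb0 : b0 ≤ 9 ∧ b0 % 2 = 1) (hc0 : c0 ≤ 9 ∧ c0 % 2 = 1)
    (hz5 : z5 ≤ 9 ∧ z5 % 2 = 1) (hw5 : w5 ≤ 9 ∧ w5 % 2 = 1) (hb' : b' ≤ 9 ∧ b' % 2 = 1)
    (hc' : c' ≤ 9 ∧ c' % 2 = 1) (hl' : l5 ≤ 9 ∧ l5 % 2 = 0)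
    (hb0' : b0' ≤ 9 ∧ b0' % 2 = 1) (hc0' : c0' ≤ 9 ∧ c0' % 2 = 1) (hz3 : z3 ≤ 9 ∧ z3 % 2 = 1)
    (h1 : al3 z1 w1 b = O) (h2 : al3 z1 b c = A) (h3 : al2 b0 c0 = B) (h4 : ev2 p q = L)
    (h1' : al3 z5 w5 b' = O) (h2' : al3 z5 b' c' = A') (h3' : al2 b0' c0' = B')
    (h5 : gp z1 l1) (h6 : gp z5 l5) (h7 : gp b d) :
    ∃ v1 v2 v3 v4 v5 y x u T y' x' u', Core z3 v1 v2 v3 v4 v5 ∧
      SdY z1 b d q l1 b0 c0 v1 v2 v3 v4 v5 y x u T ∧
      u ≤ 9 ∧ u % 2 = 0 ∧ u ≠ p ∧ u ≠ q ∧ u ≠ y ∧ T ≤ 9 ∧ T % 2 = 0 ∧ T ≠ p ∧ T ≠ q ∧ T ≠ u ∧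
      SdV z5 w5 b' c' l5 b0' c0' L' v5 v4 v3 v2 v1 y' x' u' := by
  have hm := List.all_eq_true.1 LY_mem _ h
  rw [Bool.and_eq_true] at hm
  obtain ⟨s, hs, hsO⟩ := List.any_eq_true.1 hm.1
  have hO := isT3_iff hsO
  obtain ⟨r, hr, hrO⟩ := List.any_eq_true.1 hm.2
  have hR := isT3_iff hrO
  obtain ⟨s', hs', hsO'⟩ := List.any_eq_true.1 (List.all_eq_true.1 LZ_mem s hs)
  have hO' := Nat.eq_of_beq_eq_true hsO'
  rw [hO] at hO'
  obtain ⟨t, ht, htz⟩ := List.any_eq_true.1 (List.all_eq_true.1 CY_mem z3 (mem_od hz3))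
  have hz := Nat.eq_of_beq_eq_true htz
  -- side A
  have cA0 := List.all_eq_true.1 (List.all_eq_true.1 chkYA s hs) z1 (mem_od hz1)
  unfold bodyA at cA0
  have cA := List.all_eq_true.1 (List.all_eq_true.1 cA0 w1 (mem_od hw1)) b (mem_od hb)
  rw [hO, Bool.or_eq_true, nb_iff] at cA
  rcases cA with cA | cA
  · exact absurd h1 cA
  have cA1 := List.all_eq_true.1 cA c (mem_od hc)
  rw [Bool.or_eq_true, nb_iff] at cA1
  rcases cA1 with cA1 | cA1
  · exact absurd h2 cA1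
  have cA2 := List.all_eq_true.1 cA1 d (mem_ev hd)
  rw [gb_iff.2 h7, Bool.not_true, Bool.false_or] at cA2
  have cA3 := List.all_eq_true.1 cA2 l1 (mem_ev hl)
  rw [gb_iff.2 h5, Bool.not_true, Bool.false_or] at cA3
  have cA4 := List.all_eq_true.1 cA3 q (mem_ev hq)
  rw [Bool.or_eq_true] at cA4
  rcases cA4 with cA4 | cA4
  · have h8 : L.testBit (q / 2) = true := tb_iff.1 cA4
    rw [← h4] at h8
    exact absurd rfl (ev2_spec (mem_ev hp) (mem_ev hq) (mem_ev hq) h8).2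
  obtain ⟨m, hm1, cA5⟩ := List.any_eq_true.1 cA4
  -- side B
  have cB0 := chkYB hs' hr (mem_od hz5)
  unfold bodyB at cB0
  rw [hR, Bool.or_eq_true, nb_iff] at cB0
  rcases cB0 with cB0 | cB0
  · exact absurd hO' cB0
  have cB := List.all_eq_true.1 (List.all_eq_true.1 cB0 w5 (mem_od hw5)) b' (mem_od hb')
  rw [Bool.or_eq_true, nb_iff] at cB
  rcases cB with cB | cB
  · exact absurd h1' cB
  have cB1 := List.all_eq_true.1 cB c' (mem_od hc')
  rw [Bool.or_eq_true, nb_iff] at cB1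
  rcases cB1 with cB1 | cB1
  · exact absurd h2' cB1
  have cB2 := List.all_eq_true.1 cB1 l5 (mem_ev hl')
  rw [gb_iff.2 h6, Bool.not_true, Bool.false_or] at cB2
  have cB3 := List.all_eq_true.1 (List.all_eq_true.1 cB2 b0' (mem_od hb0')) c0' (mem_od hc0')
  rw [Bool.or_eq_true, nb_iff] at cB3
  rcases cB3 with cB3 | cB3
  · exact absurd h3' cB3
  -- together
  have cC := List.all_eq_true.1 (List.all_eq_true.1 chkYC s hs) s' hs'
  rw [Bool.or_eq_true, nb_iff, hO] at cC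
  rcases cC with cC | cC
  · exact absurd hO' cC
  obtain ⟨v, e1, e2, e3⟩ := pick cA5 cB3 (List.all_eq_true.1 CY_ok t ht)
    (List.all_eq_true.1 (List.all_eq_true.1 cC m hm1) t ht)
  rw [hz] at e3
  obtain ⟨a1, a2, a3, a4, a5, u, hu, a6, a7, ⟨x, hx, a8, a9, a10, a11, a12⟩, T, hT, a13, a14, a15,
    y, hy, a16, a17, a18, a19, a20, a21, a22⟩ := fY_spec e1
  obtain ⟨y', x', u', hy'⟩ := fV'_spec e2
  have h8 : x ≠ b0 ∧ x ≠ c0 := al2_spec (mem_od hb0) (mem_od hc0) hx (by rw [h3]; exact a8)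
  have h9 : u ≠ p ∧ u ≠ q := ev2_spec (mem_ev hp) (mem_ev hq) hu (by rw [h4]; exact a6)
  have h10 : T ≠ p ∧ T ≠ q := ev2_spec (mem_ev hp) (mem_ev hq) hT (by rw [h4]; exact a13)
  exact ⟨v.1, v.2.1, v.2.2.1, v.2.2.2.1, v.2.2.2.2, y, x, u, T, y', x', u', coreb_spec e3,
    ⟨(ev_mem hy).1, (ev_mem hy).2, a20, a19, a18, a16, a21, a22, (od_mem hx).1, (od_mem hx).2,
      h8.1, h8.2, a9, a10, a11, a12, a1, a4, a5, a15, a3, a7, a2⟩,
    (ev_mem hu).1, (ev_mem hu).2, h9.1, h9.2, a17, (ev_mem hT).1, (ev_mem hT).2, h10.1, h10.2,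
    a14, hy'⟩

end Helper38.J
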