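import Pool.Agent.helper38.L9.J2Y

/-!
# The joint stage: `Y2`
-/

namespace Helper38.J

open Pool.Agent.helper40.L9.J Helper19.J

/-- the part of the first link and of `u 0` -/
def fX (b0 c0 C : ℕ) (v : P5) : Bool :=
  eb v.2.2.2.1 && (od.any fun x => nb x b0 && (nb x c0 && (gb x v.2.2.2.1 && (nb x v.2.2.1 &&
    (nb x v.2.2.2.2 && (ev.any fun u => tb C (Nat.div u 2) && (gb x u && nb v.2.2.2.1 u)))))))

theorem fX_spec {b0 c0 C : ℕ} {v : P5} (h : fX b0 c0 C v = true) :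
    v.2.2.2.1 % 2 = 0 ∧ ∃ x ∈ od, x ≠ b0 ∧ x ≠ c0 ∧ gp x v.2.2.2.1 ∧ x ≠ v.2.2.1 ∧
      x ≠ v.2.2.2.2 ∧ ∃ u ∈ ev, C.testBit (u / 2) = true ∧ gp x u ∧ v.2.2.2.1 ≠ u := by
  unfold fX at h
  simp only [Bool.and_eq_true, nb_iff, gb_iff, eb_iff, List.any_eq_true, tb_iff] at h
  exact h

/-- the core with given labels of `v1, v2` -/
def fC (z3 a e : ℕ) (v : P5) : Bool := Nat.beq v.1 a && (Nat.beq v.2.1 e && coreb z3 v)

/-- the patterns for `Y2` -/
def PZ : List P5 := [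
    (2, 4, 6, 0, 7), (6, 4, 0, 8, 1), (0, 2, 4, 0, 7), (8, 6, 4, 8, 1), (8, 4, 6, 8, 1), (2, 4,
    8, 0, 7), (0, 4, 2, 0, 7), (8, 4, 0, 8, 1), (8, 4, 2, 0, 7), (2, 4, 6, 8, 1), (6, 4, 2, 0,
    7), (0, 4, 6, 8, 1), (0, 4, 6, 0, 7), (2, 0, 4, 8, 1), (8, 6, 0, 4, 7), (2, 6, 0, 8, 5), (8,
    6, 0, 4, 1), (8, 2, 0, 4, 1), (2, 0, 4, 8, 5), (8, 6, 0, 8, 5), (6, 0, 8, 4, 7), (8, 2, 0,
    4, 7), (2, 6, 4, 0, 3), (0, 2, 4, 8, 1), (4, 0, 6, 8, 5), (2, 4, 0, 8, 5), (4, 0, 2, 8, 5),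
    (6, 0, 2, 8, 5), (0, 4, 2, 8, 5), (6, 0, 8, 4, 1), (0, 6, 2, 4, 1), (0, 6, 2, 8, 5), (6, 2,
    4, 0, 3), (0, 6, 4, 8, 5), (4, 8, 2, 0, 3), (0, 6, 2, 4, 7), (6, 2, 8, 0, 3), (4, 6, 8, 0,
    3), (0, 2, 6, 8, 5), (2, 6, 8, 4, 1), (8, 2, 6, 4, 1), (0, 2, 8, 4, 1), (8, 6, 2, 0, 3), (0,
    8, 2, 0, 3), (0, 2, 4, 0, 3), (8, 4, 2, 0, 3), (4, 2, 6, 8, 5), (2, 0, 6, 8, 5), (2, 0, 8,
    4, 7), (0, 8, 2, 4, 1), (8, 2, 4, 0, 3), (6, 2, 0, 4, 7), (0, 8, 2, 4, 7), (4, 2, 0, 4, 7),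
    (4, 0, 2, 4, 1), (8, 4, 6, 0, 7), (8, 0, 2, 4, 1), (6, 0, 2, 4, 7), (2, 4, 8, 0, 3), (6, 8,
    4, 0, 3), (2, 6, 4, 8, 5), (8, 6, 4, 8, 5), (0, 6, 8, 4, 1), (2, 8, 0, 4, 7), (4, 6, 8, 4,
    1), (2, 4, 0, 8, 1), (4, 2, 6, 0, 3), (2, 0, 6, 4, 7), (8, 2, 0, 8, 5), (0, 2, 4, 8, 5), (6,
    8, 0, 4, 1), (0, 2, 6, 4, 1), (2, 0, 8, 4, 1), (0, 6, 8, 0, 3), (8, 6, 4, 0, 7), (4, 2, 8,
    0, 3), (2, 8, 4, 0, 3), (6, 4, 8, 0, 7), (2, 6, 0, 4, 1), (8, 0, 6, 4, 7), (2, 4, 6, 8, 5),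
    (8, 0, 2, 8, 5), (6, 0, 2, 4, 1), (4, 0, 2, 4, 7), (6, 2, 0, 8, 5), (6, 2, 4, 8, 5), (0, 6,
    8, 4, 7), (4, 2, 0, 4, 1), (6, 2, 8, 4, 1), (6, 8, 4, 0, 7), (6, 2, 0, 4, 1), (4, 6, 8, 4,
    7), (2, 6, 8, 0, 3), (8, 6, 4, 0, 3), (0, 4, 2, 8, 1), (4, 8, 6, 4, 1), (2, 0, 6, 4, 1), (6,
    8, 0, 4, 7), (0, 2, 6, 4, 7), (6, 8, 2, 0, 3), (2, 6, 8, 4, 7), (8, 2, 6, 0, 3), (0, 2, 8,
    0, 3), (6, 2, 8, 4, 7), (6, 4, 0, 8, 5), (4, 8, 6, 0, 3), (4, 2, 0, 8, 5), (2, 8, 0, 4, 1),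
    (8, 2, 6, 4, 7), (0, 2, 8, 4, 7), (0, 4, 2, 0, 3), (4, 8, 6, 4, 7), (2, 8, 6, 0, 3), (4, 6,
    2, 0, 3), (8, 0, 2, 4, 7), (2, 4, 6, 0, 3), (0, 8, 6, 4, 1), (8, 0, 6, 4, 1), (6, 4, 2, 0,
    3), (0, 8, 6, 4, 7), (2, 6, 0, 4, 7), (6, 4, 8, 0, 3), (8, 4, 6, 8, 5), (6, 0, 4, 8, 5), (4,
    6, 0, 8, 5), (8, 0, 6, 8, 5), (2, 8, 6, 4, 1), (0, 4, 6, 8, 5), (2, 8, 6, 4, 7), (8, 4, 6,
    0, 3), (0, 8, 6, 0, 3), (4, 6, 0, 4, 7), (8, 2, 4, 8, 5), (8, 4, 0, 8, 5), (4, 8, 0, 4, 7),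
    (4, 0, 6, 4, 1), (4, 2, 6, 4, 7), (4, 0, 6, 4, 7), (4, 8, 0, 4, 1), (0, 6, 2, 0, 3), (0, 4,
    6, 0, 3), (4, 2, 6, 4, 1), (4, 6, 0, 4, 1)]

/-- `O, B`, the label of `z3` and the pairs of labels of `v1, v2` -/
def WT : List (ℕ × ℕ × ℕ × ℕ) := [
    (5, 13, 1, 0xf18dae), (5, 13, 3, 0xf32da6), (5, 13, 5, 0xf3ad8c), (5, 13, 7, 0xf3adae), (5,
    13, 9, 0xf3adae), (9, 11, 1, 0x31ef3a), (9, 11, 3, 0xb9ef3a), (9, 11, 5, 0xb9ef3a), (9, 11,
    7, 0xb9ef18), (9, 11, 9, 0xb9ef3a), (9, 13, 1, 0x31ef3a), (9, 13, 3, 0xb9ef3a), (9, 13, 5,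
    0xb9ef3a), (9, 13, 7, 0xb9ef18), (9, 13, 9, 0xb9ef3a), (10, 11, 1, 0xeb6b9e), (10, 11, 3,
    0x636b9e), (10, 11, 5, 0xcb699e), (10, 11, 7, 0xeb631e), (10, 11, 9, 0xeb6b9e)]

/-- `B, C` and the mask of `fX` -/
def XT : List (ℕ × ℕ × ℕ) := [
    (11, 3, 0x7cb6fe7b4f69f5b75bf77d46fff7ffcfaa9a), (11, 5,
    0x7cb6fe7b4f69f5b75bf77d46fff7ffcfaa9a), (11, 6, 0x7cb6fe7b4f69b5b75bf57d46fff7ff4f8000),
    (11, 9, 0x67f9fdb4bd97cfffe5fbf3fbc3caffbfffff), (11, 10,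
    0x7fffffffffffffffffffffffffffffffffff), (11, 12, 0x1b7fbfcff7fe7a7bbe3ebebdfc7f9ffcffff),
    (11, 17, 0x67f9fdb4bd97cfffe5fbf3fbc3caffbfffff), (11, 18,
    0x7fcf43fffaffbfccffcdcfff3fbd60735565), (11, 20, 0x1b7fbfcff7fe3a7bbe3cbebdfc7f9f7cd565),
    (13, 5, 0x7cb6fe7b4f69f5b75bf77d46fff7ffcfaa9a), (13, 6,
    0x7cb6fe7b4f69f7b77ff77dc6fff7ffcfbfff), (13, 9, 0x67f9fdb4bd97cdffc1fbf37bc3caffbfea9a),
    (13, 10, 0x7fffffffffffffffffffffffffffffffffff), (13, 12,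
    0x1b7fbfcff7fe387b9a3cbe3dfc7f9f7cc000), (13, 17, 0x7fcf43fffaffffccffcfcfff3fbd60f37fff),
    (13, 18, 0x7fcf43fffaffffccffcfcfff3fbd60f37fff), (13, 20,
    0x1b7fbfcff7fe3a7bbe3cbebdfc7f9f7cd565), (13, 24, 0x1b7fbfcff7fe3a7bbe3cbebdfc7f9f7cd565)]

/-- the masks of the virtual sides -/
def ZT : List (ℕ × ℕ) := [
    (5, 0x64b0fc300d01c5b741f37142c3c2ff8faa9a), (9, 0x67c941b4b897cfcce5cbc3fb038860b37fff),
    (10, 0x1b4f03cff2fe3a48be0c8ebd3c3d00705565)]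

/-- the masks of `fC` -/
def CT : List (ℕ × ℕ × ℕ × ℕ) := [
    (1, 0, 2, 0x2044000000a00000124000800004), (1, 0, 4,
    0x100080000000000000000000000000001800), (1, 0, 6, 0x4002004000000200000000), (1, 0, 8,
    0x400900000000000000000000000000000), (1, 2, 0, 0x1000001080001800000042000), (1, 2, 4,
    0x80000000100000400000000000221), (1, 2, 6, 0x10100000001000008000400000), (1, 2, 8,
    0x140010000000010000000000000000000), (1, 4, 0, 0x28000000000000000000000000001000000), (1,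
    4, 2, 0x210000000000000008040000400000000000), (1, 4, 6, 0x80000010000002000000000), (1, 4,
    8, 0x8200800000000000000000000000), (1, 6, 0, 0x8000000000000000000000020100000), (1, 6, 2,
    0x80012000000000001100000000), (1, 6, 4, 0x2000000000020000000000000000000), (1, 6, 8,
    0x20000000800000000000000), (1, 8, 0, 0x20200000000080000000000000000000), (1, 8, 2,
    0x1000001020000000000004010000000000), (1, 8, 4, 0x204000000000000000080000000000010), (1,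
    8, 6, 0x200004002000000000000008), (3, 0, 2, 0x2044000000800000024000000000), (3, 0, 4,
    0x100080000000000000000000000000001800), (3, 0, 6, 0x4002004000000000000000), (3, 0, 8,
    0x400900000000000000000000000000000), (3, 2, 0, 0x1000001080001800000000000), (3, 2, 4,
    0x80000000100020400000002000221), (3, 2, 6, 0x1000010100040000000008000008000), (3, 2, 8,
    0x140010800000000008000000000000000), (3, 4, 0, 0x28000000000000000000000000001000000), (3,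
    4, 2, 0x210000000400008008040020400000000000), (3, 4, 6,
    0x400810000000080000010000002000000000), (3, 4, 8, 0x44000008200800000000000000000000000),
    (3, 6, 0, 0x20100000), (3, 6, 2, 0x80051000000008001000000000), (3, 6, 4,
    0x2000100000020000000000000000002), (3, 6, 8, 0x2000000400000000000000000), (3, 8, 0,
    0x20200000000080000000000000000000), (3, 8, 2, 0x1020000000100000010000220000), (3, 8, 4,
    0x2204000000000000000080000000000090), (3, 8, 6, 0x94000), (5, 0, 2,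
    0x2040000000000000020000000000), (5, 0, 4, 0x4000400000000000000010000040), (5, 0, 6,
    0x800000000000040020040000008c0000000), (5, 0, 8, 0x12080000000000), (5, 2, 0,
    0x1000001000000000000), (5, 2, 4, 0x20400000002000020), (5, 2, 6,
    0x1000010100040000000008000008000), (5, 2, 8, 0x800000000008000000000000000), (5, 4, 0,
    0x800000040000004000000), (5, 4, 2, 0x400008008000020000000000000), (5, 4, 6,
    0x400810020000080000010000002000000000), (5, 4, 8, 0x44000000000000000000000000400000000),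
    (5, 6, 0, 0x400000200000028100000), (5, 6, 2, 0x80051000000008001000000000), (5, 6, 4,
    0x2400100000020000000000000000402), (5, 6, 8, 0xa000000400000000000000000), (5, 8, 0,
    0x40000000200000100000000000000), (5, 8, 2, 0x100000000000220000), (5, 8, 4,
    0x2000000000000000000000200000000180), (5, 8, 6, 0x40000094000), (7, 0, 2,
    0x200000100000800004), (7, 0, 4, 0x4000400000000000000010000040), (7, 0, 6,
    0x80000000000000000000000000ac0000000), (7, 0, 8, 0x12080000000000), (7, 2, 0, 0x42000), (7,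
    2, 4, 0x20000000002000000), (7, 2, 6, 0x1000000000040001000000000408000), (7, 2, 8,
    0x800000010008000000000000000), (7, 4, 0, 0x800000040000004000000), (7, 4, 2,
    0x400008000000020000000000000), (7, 4, 6, 0x400810020000000000000000000000000000), (7, 4, 8,
    0x44000000000000000000000000400000000), (7, 6, 0, 0x8000000000400000200000008000000), (7, 6,
    2, 0x43000000008000100000000), (7, 6, 4, 0x400100000000000000000000000402), (7, 6, 8,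
    0xa020000400800000000000000), (7, 8, 0, 0x40000000200000100000000000000), (7, 8, 2,
    0x1000000000000000100004000000220000), (7, 8, 4, 0x2000000000000000000000200000000180), (7,
    8, 6, 0x200004002000040000094008), (9, 0, 2, 0x4000000a00000104000800004), (9, 0, 4,
    0x100080004000400000000000000010001840), (9, 0, 6, 0x80000000000000000000000000ac0000000),
    (9, 0, 8, 0x400900000000000000012080000000000), (9, 2, 0, 0x1000000080000800000042000), (9,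
    2, 4, 0x80000000100020000000002000201), (9, 2, 6, 0x1000000000040001000000000408000), (9, 2,
    8, 0x140010800000010008000000000000000), (9, 4, 0, 0x28000000000000800000040000005000000),
    (9, 4, 2, 0x210000000400008000040020400000000000), (9, 4, 6,
    0x400810020000000000000000000000000000), (9, 4, 8, 0x44000008200800000000000000400000000),
    (9, 6, 0, 0x8000000000400000200000008000000), (9, 6, 2, 0x43000000008000100000000), (9, 6,
    4, 0x400100000000000000000000000402), (9, 6, 8, 0xa020000400800000000000000), (9, 8, 0,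
    0x20240000000280000100000000000000), (9, 8, 2, 0x1000001020000000100004010000220000), (9, 8,
    4, 0x2204000000000000000080200000000190), (9, 8, 6, 0x200004002000040000094008)]

/-- `O, A` and the labels of `z1, b` -/
def ZB : List (ℕ × ℕ × ℕ × ℕ) := [
    (5, 12, 3, 9), (5, 12, 9, 3), (9, 3, 5, 9), (9, 3, 9, 5), (9, 5, 3, 9), (9, 5, 9, 3), (9,
    10, 5, 9), (9, 10, 9, 5), (9, 12, 3, 9), (9, 12, 9, 3), (10, 3, 5, 9), (10, 3, 9, 5)]

/-- the label of `z1` and the pairs of labels of `y, T` -/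
def HT : List (ℕ × ℕ) := [
    (3, 0x73efbe), (3, 0xebefae), (3, 0xfb6fb6), (5, 0xdbedbe), (5, 0xebefae), (5, 0xfbef9c),
    (9, 0xfbefbe)]

/-- the bit of a pair of even labels -/
def pb (m i j : ℕ) : Bool := tb m (Nat.add (Nat.mul 5 (Nat.div i 2)) (Nat.div j 2))

/-- the check of `XT`, given `B` -/
def chkX1 (B : ℕ) : Bool := XT.all fun s => nb s.1 B || od.all fun b0 => od.all fun c0 =>
  nb (al2 b0 c0) s.1 || sub s.2.2 (msk (fX b0 c0 s.2.1) PZ)

theorem kX_11 : chkX1 11 = true := by decide +kernel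
theorem kX_13 : chkX1 13 = true := by decide +kernel

theorem XT_B : (XT.all fun s => Nat.beq s.1 11 || Nat.beq s.1 13) = true := by decide +kernel

theorem chkX : (XT.all fun s => od.all fun b0 => od.all fun c0 => nb (al2 b0 c0) s.1 ||
    sub s.2.2 (msk (fX b0 c0 s.2.1) PZ)) = true := by
  rw [List.all_eq_true]
  intro s hs
  have h0 := List.all_eq_true.1 XT_B s hs
  rw [Bool.or_eq_true] at h0
  rcases h0 with h0 | h0
  · have h1 := List.all_eq_true.1 kX_11 s hs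
    rw [Bool.or_eq_true, nb_iff] at h1
    rcases h1 with h1 | h1
    · exact absurd (Nat.eq_of_beq_eq_true h0) h1
    · exact h1
  · have h1 := List.all_eq_true.1 kX_13 s hs
    rw [Bool.or_eq_true, nb_iff] at h1
    rcases h1 with h1 | h1
    · exact absurd (Nat.eq_of_beq_eq_true h0) h1
    · exact h1

theorem chkCT : (CT.all fun s => sub s.2.2.2 (msk (fC s.1 s.2.1 s.2.2.1) PZ)) = true := by
  decide +kernel

def bodyZ (z : ℕ) (s' : ℕ × ℕ) (s : (ℕ × ℕ × ℕ × ℕ) × List ℕ) : Bool :=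
    od.all fun w => od.all fun b =>
    nb (al3 z w b) s.1.1 || od.all fun c => nb (al3 z b c) s.1.2.1 || ev.all fun l =>
      !(gb z l) || od.all fun b0 => od.all fun c0 => nb (al2 b0 c0) s.1.2.2.2 ||
        sub s'.2 (msk (fV' z w b c l b0 c0 s.1.2.2.1) PZ)

def chkZ1 (O z : ℕ) : Bool := ZT.all fun s' => !(Nat.beq s'.1 O) || LY.all fun s =>
  nb s.1.1 s'.1 || bodyZ z s' s

theorem kZ_5_1 : chkZ1 5 1 = true := by decide +kernel
theorem kZ_5_3 : chkZ1 5 3 = true := by decide +kernel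
theorem kZ_5_5 : chkZ1 5 5 = true := by decide +kernel
theorem kZ_5_7 : chkZ1 5 7 = true := by decide +kernel
theorem kZ_5_9 : chkZ1 5 9 = true := by decide +kernel
theorem kZ_9_1 : chkZ1 9 1 = true := by decide +kernel
theorem kZ_9_3 : chkZ1 9 3 = true := by decide +kernel
theorem kZ_9_5 : chkZ1 9 5 = true := by decide +kernel
theorem kZ_9_7 : chkZ1 9 7 = true := by decide +kernel

/-- the part with given `A` -/
def chkZ2 (O z A : ℕ) : Bool := ZT.all fun s' => !(Nat.beq s'.1 O) || LY.all fun s =>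
  nb s.1.2.1 A || (nb s.1.1 s'.1 || bodyZ z s' s)

theorem kZ_9_9_3 : chkZ2 9 9 3 = true := by decide +kernel
theorem kZ_9_9_5 : chkZ2 9 9 5 = true := by decide +kernel
theorem kZ_9_9_10 : chkZ2 9 9 10 = true := by decide +kernel
theorem kZ_9_9_12 : chkZ2 9 9 12 = true := by decide +kernel

theorem LY_A : (LY.all fun s => Nat.beq s.1.2.1 3 || (Nat.beq s.1.2.1 5 ||
    (Nat.beq s.1.2.1 10 || Nat.beq s.1.2.1 12))) = true := by decide +kernel

theorem chkZ2_use {O z A : ℕ} (h : chkZ2 O z A = true) {s' : ℕ × ℕ} (hs' : s' ∈ ZT)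
    (ho : Nat.beq s'.1 O = true) {s : (ℕ × ℕ × ℕ × ℕ) × List ℕ} (hs : s ∈ LY)
    (hA : Nat.beq s.1.2.1 A = true) : (nb s.1.1 s'.1 || bodyZ z s' s) = true := by
  have h1 := List.all_eq_true.1 h s' hs'
  rw [ho, Bool.not_true, Bool.false_or] at h1
  have h2 := List.all_eq_true.1 h1 s hs
  rw [Bool.or_eq_true, nb_iff] at h2
  rcases h2 with h2 | h2
  · exact absurd (Nat.eq_of_beq_eq_true hA) h2
  · exact h2

theorem kZ_9_9 : chkZ1 9 9 = true := by
  unfold chkZ1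
  rw [List.all_eq_true]
  intro s' hs'
  cases ho : Nat.beq s'.1 9
  · rfl
  · rw [Bool.not_true, Bool.false_or, List.all_eq_true]
    intro s hs
    have hA := List.all_eq_true.1 LY_A s hs
    rw [Bool.or_eq_true, Bool.or_eq_true, Bool.or_eq_true] at hA
    rcases hA with hA | hA | hA | hA
    · exact chkZ2_use kZ_9_9_3 hs' ho hs hA
    · exact chkZ2_use kZ_9_9_5 hs' ho hs hA
    · exact chkZ2_use kZ_9_9_10 hs' ho hs hA
    · exact chkZ2_use kZ_9_9_12 hs' ho hs hA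

theorem kZ_10_1 : chkZ1 10 1 = true := by decide +kernel
theorem kZ_10_3 : chkZ1 10 3 = true := by decide +kernel
theorem kZ_10_5 : chkZ1 10 5 = true := by decide +kernel
theorem kZ_10_7 : chkZ1 10 7 = true := by decide +kernel
theorem kZ_10_9 : chkZ1 10 9 = true := by decide +kernel

theorem kZ_5 : (od.all fun z => chkZ1 5 z) = true := by
  simp only [od, List.all_cons, List.all_nil, kZ_5_1, kZ_5_3, kZ_5_5, kZ_5_7, kZ_5_9,
    Bool.and_true]

theorem kZ_9 : (od.all fun z => chkZ1 9 z) = true := by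
  simp only [od, List.all_cons, List.all_nil, kZ_9_1, kZ_9_3, kZ_9_5, kZ_9_7, kZ_9_9,
    Bool.and_true]

theorem kZ_10 : (od.all fun z => chkZ1 10 z) = true := by
  simp only [od, List.all_cons, List.all_nil, kZ_10_1, kZ_10_3, kZ_10_5, kZ_10_7, kZ_10_9,
    Bool.and_true]

theorem kZ_all : (ZT.all fun s' => od.all fun z => chkZ1 s'.1 z) = true := by
  simp only [ZT, List.all_cons, List.all_nil, kZ_5, kZ_9, kZ_10, Bool.and_true]

theorem chkZ {s' : ℕ × ℕ} (hs' : s' ∈ ZT) {s : (ℕ × ℕ × ℕ × ℕ) × List ℕ} (hs : s ∈ LY) {z : ℕ}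
    (hz : z ∈ od) : (nb s.1.1 s'.1 || bodyZ z s' s) = true := by
  have h1 := List.all_eq_true.1 (List.all_eq_true.1 (List.all_eq_true.1 kZ_all s' hs') z hz) s' hs'
  have h2 : Nat.beq s'.1 s'.1 = true := Nat.beq_refl _
  rw [h2, Bool.not_true, Bool.false_or] at h1
  exact List.all_eq_true.1 h1 s hs

theorem ZT_mem : (LY.all fun s => ZT.any fun s' => Nat.beq s.1.1 s'.1) = true := by decide +kernel

def bodyW (s : ℕ × ℕ × ℕ × ℕ) : Bool := dVV.all fun d => nb d.1 s.1 || (nb d.2.2.2.1 s.2.1 ||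
    M2.all fun C => !(sub C d.2.2.1) || ev.all fun a => ev.all fun e => !(pb s.2.2.2 a e) ||
      XT.any fun x => Nat.beq x.1 s.2.1 && (Nat.beq x.2.1 C && (ZT.all fun r => nb r.1 s.1 ||
        (CT.any fun t => Nat.beq t.1 s.2.2.1 && (Nat.beq t.2.1 a && (Nat.beq t.2.2.1 e &&
          nb (Nat.land x.2.2 (Nat.land r.2 t.2.2.2)) 0))))))

theorem kW_5_13_1 : bodyW (5, 13, 1, 0xf18dae) = true := by decide +kernel
theorem kW_5_13_3 : bodyW (5, 13, 3, 0xf32da6) = true := by decide +kernel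
theorem kW_5_13_5 : bodyW (5, 13, 5, 0xf3ad8c) = true := by decide +kernel
theorem kW_5_13_7 : bodyW (5, 13, 7, 0xf3adae) = true := by decide +kernel
theorem kW_5_13_9 : bodyW (5, 13, 9, 0xf3adae) = true := by decide +kernel
theorem kW_9_11_1 : bodyW (9, 11, 1, 0x31ef3a) = true := by decide +kernel
theorem kW_9_11_3 : bodyW (9, 11, 3, 0xb9ef3a) = true := by decide +kernel
theorem kW_9_11_5 : bodyW (9, 11, 5, 0xb9ef3a) = true := by decide +kernel
theorem kW_9_11_7 : bodyW (9, 11, 7, 0xb9ef18) = true := by decide +kernel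
theorem kW_9_11_9 : bodyW (9, 11, 9, 0xb9ef3a) = true := by decide +kernel
theorem kW_9_13_1 : bodyW (9, 13, 1, 0x31ef3a) = true := by decide +kernel
theorem kW_9_13_3 : bodyW (9, 13, 3, 0xb9ef3a) = true := by decide +kernel
theorem kW_9_13_5 : bodyW (9, 13, 5, 0xb9ef3a) = true := by decide +kernel
theorem kW_9_13_7 : bodyW (9, 13, 7, 0xb9ef18) = true := by decide +kernel
theorem kW_9_13_9 : bodyW (9, 13, 9, 0xb9ef3a) = true := by decide +kernel
theorem kW_10_11_1 : bodyW (10, 11, 1, 0xeb6b9e) = true := by decide +kernel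
theorem kW_10_11_3 : bodyW (10, 11, 3, 0x636b9e) = true := by decide +kernel
theorem kW_10_11_5 : bodyW (10, 11, 5, 0xcb699e) = true := by decide +kernel
theorem kW_10_11_7 : bodyW (10, 11, 7, 0xeb631e) = true := by decide +kernel
theorem kW_10_11_9 : bodyW (10, 11, 9, 0xeb6b9e) = true := by decide +kernel

theorem chkW : (WT.all fun s => bodyW s) = true := by
  simp only [WT, List.all_cons, List.all_nil, Bool.and_true,
    kW_5_13_1, kW_5_13_3, kW_5_13_5, kW_5_13_7, kW_5_13_9, kW_9_11_1, kW_9_11_3, kW_9_11_5,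
    kW_9_11_7, kW_9_11_9, kW_9_13_1, kW_9_13_3, kW_9_13_5, kW_9_13_7, kW_9_13_9, kW_10_11_1,
    kW_10_11_3, kW_10_11_5, kW_10_11_7, kW_10_11_9]

theorem WT_mem : (dVV.all fun d => od.all fun z3 => WT.any fun s => Nat.beq d.1 s.1 &&
    (Nat.beq d.2.2.2.1 s.2.1 && (Nat.beq z3 s.2.2.1 && (od.all fun z => od.all fun w =>
      od.all fun b => nb (al3 z w b) d.1 || od.all fun c => nb (al3 z b c) d.2.1 ||
        ZB.any fun r => Nat.beq r.1 d.1 && (Nat.beq r.2.1 d.2.1 && (Nat.beq r.2.2.1 z &&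
          Nat.beq r.2.2.2 b)))))) = true := by
  decide +kernel

/-- a pair `y, T` is possible -/
def yT (W z l y T : ℕ) : Bool :=
  nb y T && (ev.any fun a => gb y a && (nb a T && (gb a z && (nb a l && (ev.any fun e =>
    nb y e && pb W a e)))))

theorem chkH : (WT.all fun s => ZB.all fun r => nb r.1 s.1 || ev.all fun l =>
    !(gb r.2.2.1 l) || HT.any fun h => Nat.beq h.1 r.2.2.1 && (ev.all fun y => ev.all fun T =>
      !(pb h.2 y T) || yT s.2.2.2 r.2.2.1 l y T)) = true := by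
  decide +kernel

/-- the label `u` is possible -/
def uk1 (H p q y u : ℕ) : Bool :=
  nb u p && (nb u q && (nb u y && (ev.any fun T => nb T p && (nb T q && (nb T u &&
    pb H y T)))))

theorem chkU : (HT.all fun h => ZB.all fun r => nb h.1 r.2.2.1 || ev.all fun d =>
    !(gb r.2.2.2 d) || ev.all fun p => ev.all fun q => ev.any fun y => nb y q && (nb y d &&
      (gb y r.2.2.2 && (ev.any fun u1 => uk1 h.2 p q y u1 && (ev.any fun u2 =>
        (Nat.beq u1 0 || nb u1 u2) && uk1 h.2 p q y u2))))) = true := by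
  decide +kernel

/-- the same for `k ≥ 2`: `p, q` the labels of the ends of the last unit, `L` the mask of the
first unit; `uk` the label of `u (k-1)` (all but one of the candidates can be continued, `0` always),
`C` the labels of `u 0` which can be reached -/
theorem Y2 {O A L B A' L' B' : ℕ} (h : (O, A, L, B, A', L', B') ∈ dVV)
    (z1 w1 b c d l1 p q b0 c0 z5 w5 b' c' l5 b0' c0' z3 : ℕ)
    (hz1 : z1 ≤ 9 ∧ z1 % 2 = 1) (hw1 : w1 ≤ 9 ∧ w1 % 2 = 1) (hb : b ≤ 9 ∧ b % 2 = 1)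
    (hc : c ≤ 9 ∧ c % 2 = 1) (hd : d ≤ 9 ∧ d % 2 = 0) (hl : l1 ≤ 9 ∧ l1 % 2 = 0)
    (hp : p ≤ 9 ∧ p % 2 = 0) (hq : q ≤ 9 ∧ q % 2 = 0)
    (hb0 : b0 ≤ 9 ∧ b0 % 2 = 1) (hc0 : c0 ≤ 9 ∧ c0 % 2 = 1)
    (hz5 : z5 ≤ 9 ∧ z5 % 2 = 1) (hw5 : w5 ≤ 9 ∧ w5 % 2 = 1) (hb' : b' ≤ 9 ∧ b' % 2 = 1)
    (hc' : c' ≤ 9 ∧ c' % 2 = 1) (hl' : l5 ≤ 9 ∧ l5 % 2 = 0)
    (hb0' : b0' ≤ 9 ∧ b0' % 2 = 1) (hc0' : c0' ≤ 9 ∧ c0' % 2 = 1) (hz3 : z3 ≤ 9 ∧ z3 % 2 = 1)
    (h1 : al3 z1 w1 b = O) (h2 : al3 z1 b c = A) (h3 : al2 b0 c0 = B)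
    (h1' : al3 z5 w5 b' = O) (h2' : al3 z5 b' c' = A') (h3' : al2 b0' c0' = B')
    (h5 : gp z1 l1) (h6 : gp z5 l5) (h7 : gp b d) :
    ∃ y u1 u2, (u1 = 0 ∨ u1 ≠ u2) ∧ ∀ uk, uk = u1 ∨ uk = u2 →
      uk ≤ 9 ∧ uk % 2 = 0 ∧ uk ≠ p ∧ uk ≠ q ∧ uk ≠ y ∧
      ∃ T, T ≤ 9 ∧ T % 2 = 0 ∧ T ≠ p ∧ T ≠ q ∧ T ≠ uk ∧
      ∀ C ∈ M2, C &&& L = C → ∃ v1 v2 v3 v4 v5 x u y' x' u', u % 2 = 0 ∧
        C.testBit (u / 2) = true ∧ Core z3 v1 v2 v3 v4 v5 ∧
        SdY z1 b d q l1 b0 c0 v1 v2 v3 v4 v5 y x u T ∧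
        SdV z5 w5 b' c' l5 b0' c0' L' v5 v4 v3 v2 v1 y' x' u' := by
  have hm := List.all_eq_true.1 LY_mem _ h
  rw [Bool.and_eq_true] at hm
  obtain ⟨s, hs, hsO⟩ := List.any_eq_true.1 hm.1
  have hO := isT3_iff hsO
  obtain ⟨r, hr, hrO⟩ := List.any_eq_true.1 hm.2
  have hR := isT3_iff hrO
  obtain ⟨s', hs', hsO'⟩ := List.any_eq_true.1 (List.all_eq_true.1 ZT_mem s hs)
  have hO' := Nat.eq_of_beq_eq_true hsO'
  rw [hO] at hO'
  -- side B
  have cB0 := chkZ hs' hr (mem_od hz5)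
  unfold bodyZ at cB0
  rw [hR, Bool.or_eq_true, nb_iff] at cB0
  rcases cB0 with cB0 | cB0
  · exact absurd hO' cB0
  have cB := List.all_eq_true.1 (List.all_eq_true.1 cB0 w5 (mem_od hw5)) b' (mem_od hb')
  rw [Bool.or_eq_true, nb_iff] at cB
  rcases cB with cB | cB
  · exact absurd h1' cB
  have cB1 := List.all_eq_true.1 cB c' (mem_od hc')
  rw [Bool.or_eq_true, nb_iff] at cB1
  rcases cB1 with cB1 | cB1
  · exact absurd h2' cB1
  have cB2 := List.all_eq_true.1 cB1 l5 (mem_ev hl')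
  rw [gb_iff.2 h6, Bool.not_true, Bool.false_or] at cB2
  have cB3 := List.all_eq_true.1 (List.all_eq_true.1 cB2 b0' (mem_od hb0')) c0' (mem_od hc0')
  rw [Bool.or_eq_true, nb_iff] at cB3
  rcases cB3 with cB3 | cB3
  · exact absurd h3' cB3
  -- the table of `O, B, z3`
  obtain ⟨t, ht, ct⟩ := List.any_eq_true.1
    (List.all_eq_true.1 (List.all_eq_true.1 WT_mem _ h) z3 (mem_od hz3))
  rw [Bool.and_eq_true, Bool.and_eq_true, Bool.and_eq_true] at ct
  obtain ⟨ct1, ct2, ct3, ct4⟩ := ct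
  have et1 : O = t.1 := Nat.eq_of_beq_eq_true ct1
  have et2 : B = t.2.1 := Nat.eq_of_beq_eq_true ct2
  have et3 : z3 = t.2.2.1 := Nat.eq_of_beq_eq_true ct3
  have cA := List.all_eq_true.1 (List.all_eq_true.1 (List.all_eq_true.1
    ct4 z1 (mem_od hz1)) w1 (mem_od hw1)) b (mem_od hb)
  rw [Bool.or_eq_true, nb_iff] at cA
  rcases cA with cA | cA
  · exact absurd h1 cA
  have cA1 := List.all_eq_true.1 cA c (mem_od hc)
  rw [Bool.or_eq_true, nb_iff] at cA1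
  rcases cA1 with cA1 | cA1
  · exact absurd h2 cA1
  obtain ⟨g, hg, cg⟩ := List.any_eq_true.1 cA1
  rw [Bool.and_eq_true, Bool.and_eq_true, Bool.and_eq_true] at cg
  obtain ⟨cg1, cg2, cg3, cg4⟩ := cg
  have eg1 : g.1 = O := Nat.eq_of_beq_eq_true cg1
  have eg3 : g.2.2.1 = z1 := Nat.eq_of_beq_eq_true cg3
  have eg4 : g.2.2.2 = b := Nat.eq_of_beq_eq_true cg4
  have cH := List.all_eq_true.1 (List.all_eq_true.1 chkH t ht) g hg
  rw [Bool.or_eq_true, nb_iff] at cH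
  rcases cH with cH | cH
  · exact absurd (eg1.trans et1) cH
  have cH1 := List.all_eq_true.1 cH l1 (mem_ev hl)
  rw [eg3, gb_iff.2 h5, Bool.not_true, Bool.false_or] at cH1
  obtain ⟨k, hk, ck⟩ := List.any_eq_true.1 cH1
  rw [Bool.and_eq_true] at ck
  have ek : k.1 = z1 := Nat.eq_of_beq_eq_true ck.1
  have cU := List.all_eq_true.1 (List.all_eq_true.1 chkU k hk) g hg
  rw [Bool.or_eq_true, nb_iff] at cU
  rcases cU with cU | cU
  · exact absurd (ek.trans eg3.symm) cU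
  have cU1 := List.all_eq_true.1 cU d (mem_ev hd)
  rw [eg4, gb_iff.2 h7, Bool.not_true, Bool.false_or] at cU1
  obtain ⟨y, hy, cy⟩ := List.any_eq_true.1
    (List.all_eq_true.1 (List.all_eq_true.1 cU1 p (mem_ev hp)) q (mem_ev hq))
  rw [Bool.and_eq_true, Bool.and_eq_true, Bool.and_eq_true, nb_iff, nb_iff, gb_iff] at cy
  obtain ⟨cy1, cy2, cy3, cy4⟩ := cy
  obtain ⟨u1, hu1, cu1⟩ := List.any_eq_true.1 cy4
  rw [Bool.and_eq_true] at cu1
  obtain ⟨u2, hu2, cu2⟩ := List.any_eq_true.1 cu1.2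
  rw [Bool.and_eq_true, Bool.or_eq_true, nb_iff] at cu2
  have key : ∀ uk ∈ ev, uk1 k.2 p q y uk = true → uk ≤ 9 ∧ uk % 2 = 0 ∧ uk ≠ p ∧ uk ≠ q ∧
      uk ≠ y ∧ ∃ T, T ≤ 9 ∧ T % 2 = 0 ∧ T ≠ p ∧ T ≠ q ∧ T ≠ uk ∧
      ∀ C ∈ M2, C &&& L = C → ∃ v1 v2 v3 v4 v5 x u y' x' u', u % 2 = 0 ∧
        C.testBit (u / 2) = true ∧ Core z3 v1 v2 v3 v4 v5 ∧
        SdY z1 b d q l1 b0 c0 v1 v2 v3 v4 v5 y x u T ∧
        SdV z5 w5 b' c' l5 b0' c0' L' v5 v4 v3 v2 v1 y' x' u' := by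
    intro uk huk hu
    unfold uk1 at hu
    rw [Bool.and_eq_true, Bool.and_eq_true, Bool.and_eq_true, nb_iff, nb_iff, nb_iff] at hu
    obtain ⟨j1, j2, j3, j4⟩ := hu
    obtain ⟨T, hT, j5⟩ := List.any_eq_true.1 j4
    rw [Bool.and_eq_true, Bool.and_eq_true, Bool.and_eq_true, nb_iff, nb_iff, nb_iff] at j5
    obtain ⟨j6, j7, j8, j9⟩ := j5
    refine ⟨(ev_mem huk).1, (ev_mem huk).2, j1, j2, j3, T, (ev_mem hT).1, (ev_mem hT).2, j6, j7,
      j8, ?_⟩
    intro C hC hCL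
    have c1 := List.all_eq_true.1 (List.all_eq_true.1 ck.2 y hy) T hT
    rw [j9, Bool.not_true, Bool.false_or] at c1
    unfold yT at c1
    rw [Bool.and_eq_true, nb_iff] at c1
    obtain ⟨c2, c3⟩ := c1
    obtain ⟨a, ha, c4⟩ := List.any_eq_true.1 c3
    rw [Bool.and_eq_true, Bool.and_eq_true, Bool.and_eq_true, Bool.and_eq_true, gb_iff, nb_iff,
      gb_iff, nb_iff] at c4
    obtain ⟨c5, c6, c7, c8, c9⟩ := c4
    obtain ⟨e, he, c10⟩ := List.any_eq_true.1 c9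
    rw [Bool.and_eq_true, nb_iff] at c10
    obtain ⟨c11, c12⟩ := c10
    have d0 := List.all_eq_true.1 chkW t ht
    unfold bodyW at d0
    have d1 := List.all_eq_true.1 d0 _ h
    rw [Bool.or_eq_true, Bool.or_eq_true, nb_iff, nb_iff] at d1
    rcases d1 with d1 | d1 | d1
    · exact absurd et1 d1
    · exact absurd et2 d1
    have d2 := List.all_eq_true.1 d1 C hC
    have d3 : sub C L = true := by
      have h0 : Nat.land C L = C := hCL
      unfold sub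
      rw [h0]
      exact Nat.beq_refl C
    rw [d3, Bool.not_true, Bool.false_or] at d2
    have d4 := List.all_eq_true.1 (List.all_eq_true.1 d2 a ha) e he
    rw [c12, Bool.not_true, Bool.false_or] at d4
    obtain ⟨X, hX, d5⟩ := List.any_eq_true.1 d4
    rw [Bool.and_eq_true, Bool.and_eq_true] at d5
    obtain ⟨d6, d7, d8⟩ := d5
    have eX1 : X.1 = t.2.1 := Nat.eq_of_beq_eq_true d6
    have eX2 : X.2.1 = C := Nat.eq_of_beq_eq_true d7
    have d9 := List.all_eq_true.1 d8 s' hs'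
    rw [Bool.or_eq_true, nb_iff] at d9
    rcases d9 with d9 | d9
    · exact absurd (hO'.symm.trans et1) d9
    obtain ⟨R, hRR, d10⟩ := List.any_eq_true.1 d9
    rw [Bool.and_eq_true, Bool.and_eq_true, Bool.and_eq_true] at d10
    obtain ⟨d11, d12, d13, d14⟩ := d10
    have eR1 : R.1 = t.2.2.1 := Nat.eq_of_beq_eq_true d11
    have eR2 : R.2.1 = a := Nat.eq_of_beq_eq_true d12
    have eR3 : R.2.2.1 = e := Nat.eq_of_beq_eq_true d13
    have cX := List.all_eq_true.1 (List.all_eq_true.1 (List.all_eq_true.1 chkX X hX) b0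
      (mem_od hb0)) c0 (mem_od hc0)
    rw [Bool.or_eq_true, nb_iff] at cX
    rcases cX with cX | cX
    · exact absurd (h3.trans (et2.trans eX1.symm)) cX
    obtain ⟨v, e1, e2, e3⟩ := pick cX cB3 (List.all_eq_true.1 chkCT R hRR) d14
    rw [eX2] at e1
    unfold fC at e3
    rw [Bool.and_eq_true, Bool.and_eq_true] at e3
    obtain ⟨e4, e5, e6⟩ := e3
    have e7 : v.1 = a := (Nat.eq_of_beq_eq_true e4).trans eR2
    have e8 : v.2.1 = e := (Nat.eq_of_beq_eq_true e5).trans eR3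
    rw [eR1, ← et3] at e6
    obtain ⟨a1, x, hx, a2, a3, a4, a5, a6, u, hu, a7, a8, a9⟩ := fX_spec e1
    obtain ⟨y', x', u', hy'⟩ := fV'_spec e2
    refine ⟨v.1, v.2.1, v.2.2.1, v.2.2.2.1, v.2.2.2.2, x, u, y', x', u', (ev_mem hu).2, a7,
      coreb_spec e6, ?_, hy'⟩
    rw [← e7] at c5 c6 c7 c8 ha
    rw [← e8] at c11 he
    exact ⟨(ev_mem hy).1, (ev_mem hy).2, cy3, cy2, cy1, c2, c5, c11, (od_mem hx).1,
      (od_mem hx).2, a2, a3, a4, a8, a5, a6, (ev_mem ha).2, c7, c8, c6, a1, a9, (ev_mem he).2⟩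
  refine ⟨y, u1, u2, ?_, ?_⟩
  · rcases cu2.1 with hh | hh
    · exact Or.inl (Nat.eq_of_beq_eq_true hh)
    · exact Or.inr hh
  · intro uk huk
    rcases huk with rfl | rfl
    · exact key _ hu1 cu1.1
    · exact key _ hu2 cu2.2

end Helper38.J
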